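import Pool.Agent.H81.PS.Stm

/-!
Generic slices of wandering continua are perfect (problem MP_90715c_gt): the Lipschitz arc.
-/

open Set Filter Topology

namespace Pool.Agent.H81.PS

lemma Reach.mono {f : ℂ → ℝ} {σ : Set ℂ} {c d c' d' : ℝ} (h : Reach f σ c d) (hc : c ≤ c')
    (hd : d' ≤ d) : Reach f σ c' d' := by
  obtain ⟨⟨u, hu, hu'⟩, v, hv, hv'⟩ := h
  exact ⟨⟨u, hu, hu'.trans hc⟩, v, hv, hd.trans hv'⟩

/-- Crossings of a band of levels. -/
lemma cross {κ : Set ℂ} {f : ℂ → ℝ} (hk : IsCompact κ) (hp : IsPreconnected κ)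
    (hf : ContinuousOn f κ) {s s' : ℝ} (hs : s < s') (hr : Reach f κ s s') :
    ∃ σ, Sc κ σ ∧ Reach f σ s s' ∧ ∀ x ∈ σ, f x ∈ Icc s s' := by
  have hW : IsClosed (κ ∩ f ⁻¹' Icc s s') :=
    hf.preimage_isClosed_of_isClosed hk.isClosed isClosed_Icc
  have hP : IsClosed (κ ∩ f ⁻¹' Iic s) :=
    hf.preimage_isClosed_of_isClosed hk.isClosed isClosed_Iic
  have hQ : IsClosed (κ ∩ f ⁻¹' Ici s') :=
    hf.preimage_isClosed_of_isClosed hk.isClosed isClosed_Ici
  obtain ⟨⟨u, hu, hu'⟩, v, hv, hv'⟩ := hr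
  obtain ⟨σ, hσ, h1, h2, ⟨a, ha, ha'⟩, ⟨b, hb, hb'⟩⟩ := Pool.Agent.H90.WC.bumping hk hp hW hP hQ
    (by
      intro z hz
      rcases le_total (f z) s with h | h
      · exact Or.inr (Or.inl ⟨hz, h⟩)
      · rcases le_total (f z) s' with h' | h'
        · exact Or.inl ⟨hz, h, h'⟩
        · exact Or.inr (Or.inr ⟨hz, h'⟩))
    (by
      rintro z - ⟨-, h1⟩ ⟨-, h2⟩
      have h1' : f z ≤ s := h1
      have h2' : s' ≤ f z := h2
      linarith)
    ⟨u, hu, hu, hu'⟩ ⟨v, hv, hv, hv'⟩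
  exact ⟨σ, ⟨fun z hz => (hσ hz).1, h1, h2⟩, ⟨⟨a, ha, ha'.2⟩, b, hb, hb'.2⟩,
    fun z hz => (hσ hz).2.2⟩

lemma wid_band {κ σ : Set ℂ} {f : ℂ → ℝ} {M s s' : ℝ} (hM : 0 < M) (hw : Wid κ f M)
    (hσ : Sc κ σ) (hI : ∀ x ∈ σ, f x ∈ Icc s s') {x y : ℂ} (hx : x ∈ σ) (hy : y ∈ σ) :
    dist x y ≤ M * (s' - s) := by
  obtain ⟨z, hz, w, hw', h⟩ := hw σ hσ x hx y hy
  refine h.trans (mul_le_mul_of_nonneg_left ?_ hM.le)
  have h1 := (hI z hz).2
  have h2 := (hI w hw').1
  linarith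

/-- The point over a level. -/
theorem point {κ : Set ℂ} {f : ℂ → ℝ} {M c d : ℝ} (hk : IsCompact κ) (hp : IsPreconnected κ)
    (hf : ContinuousOn f κ) (hM : 0 < M) (hw : Wid κ f M) (hr : Reach f κ c d)
    (hu : Uniq f κ c d) {t : ℝ} (ht : t ∈ Ioo c d) :
    ∃ p ∈ κ, f p = t ∧ ∀ σ, Sc κ σ → ∀ h > (0 : ℝ), Reach f σ (t - h) (t + h) → p ∈ σ := by
  set h0 : ℝ := min (t - c) (d - t) with hh0
  have h0p : 0 < h0 := lt_min (by linarith [ht.1]) (by linarith [ht.2])
  set hn : ℕ → ℝ := fun n => h0 * (1 / ((n : ℝ) + 1)) with hhn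
  have hnp : ∀ n, 0 < hn n := fun n => by
    simp only [hhn]
    positivity
  have hn0 : ∀ n, hn n ≤ h0 := fun n => by
    simp only [hhn]
    have h1 : 1 / ((n : ℝ) + 1) ≤ 1 := by
      rw [div_le_one (by positivity)]
      have := Nat.cast_nonneg (α := ℝ) n
      linarith
    nlinarith
  have hnm : ∀ n m, n ≤ m → hn m ≤ hn n := fun n m hnm => by
    simp only [hhn]
    apply mul_le_mul_of_nonneg_left _ h0p.le
    apply one_div_le_one_div_of_le (by positivity)
    have : (n : ℝ) ≤ m := by exact_mod_cast hnm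
    linarith
  have hnl : Tendsto hn atTop (𝓝 0) := by
    have := (tendsto_one_div_add_atTop_nhds_zero_nat (𝕜 := ℝ)).const_mul h0
    rwa [mul_zero] at this
  have hc1 : ∀ n, c ≤ t - hn n := fun n => by
    have := (hn0 n).trans (min_le_left _ _)
    linarith
  have hd1 : ∀ n, t + hn n ≤ d := fun n => by
    have := (hn0 n).trans (min_le_right _ _)
    linarith
  have hex : ∀ n, ∃ σ, Sc κ σ ∧ Reach f σ (t - hn n) (t + hn n) ∧
      ∀ x ∈ σ, f x ∈ Icc (t - hn n) (t + hn n) := fun n =>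
    cross hk hp hf (by linarith [hnp n]) (hr.mono (hc1 n) (hd1 n))
  choose σ hσ hσr hσI using hex
  have hne : ∀ n, ∃ x, x ∈ σ n := fun n => by
    obtain ⟨⟨u, hu, -⟩, -⟩ := hσr n
    exact ⟨u, hu⟩
  choose x hx using hne
  have hdist : ∀ n, ∀ y ∈ σ n, ∀ z ∈ σ n, dist y z ≤ 2 * M * hn n := fun n y hy z hz => by
    have := wid_band hM hw (hσ n) (hσI n) hy hz
    calc dist y z ≤ M * (t + hn n - (t - hn n)) := this
      _ = 2 * M * hn n := by ring
  have hmeet : ∀ τ, Sc κ τ → ∀ n, Reach f τ (t - hn n) (t + hn n) → (τ ∩ σ n).Nonempty :=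
    fun τ hτ n hτr => hu _ _ (hc1 n) (by linarith [hnp n]) (hd1 n) τ (σ n) hτ (hσ n) hτr (hσr n)
  have hxx : ∀ n m, n ≤ m → dist (x n) (x m) ≤ 4 * M * hn n := fun n m h => by
    obtain ⟨y, hy, hy'⟩ := hmeet (σ n) (hσ n) m
      ((hσr n).mono (by linarith [hnm n m h]) (by linarith [hnm n m h]))
    have h1 := hdist n (x n) (hx n) y hy
    have h2 := hdist m y hy' (x m) (hx m)
    have h3 := dist_triangle (x n) y (x m)
    have h4 := mul_le_mul_of_nonneg_left (hnm n m h) (by positivity : 0 ≤ 2 * M)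
    linarith
  have hC : CauchySeq x := by
    refine cauchySeq_of_le_tendsto_0' (fun n => 4 * M * hn n) hxx ?_
    have := hnl.const_mul (4 * M)
    simpa using this
  obtain ⟨p, hpk, hpl⟩ := cauchySeq_tendsto_of_isComplete hk.isComplete
    (fun n => (hσ n).sub (hx n)) hC
  refine ⟨p, hpk, ?_, ?_⟩
  · have h1 : Tendsto (fun n => f (x n)) atTop (𝓝 (f p)) :=
      (hf p hpk).tendsto.comp (tendsto_nhdsWithin_iff.2
        ⟨hpl, Eventually.of_forall fun n => (hσ n).sub (hx n)⟩)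
    have h2 : Tendsto (fun n => f (x n)) atTop (𝓝 t) := by
      rw [tendsto_iff_dist_tendsto_zero]
      refine squeeze_zero (fun n => dist_nonneg) (fun n => ?_) hnl
      have := hσI n (x n) (hx n)
      rw [Real.dist_eq, abs_le]
      constructor <;> linarith [this.1, this.2]
    exact tendsto_nhds_unique h1 h2
  · intro τ hτ h hh hτr
    obtain ⟨N, hN⟩ := (hnl.eventually (gt_mem_nhds hh)).exists_forall_of_atTop
    have hex : ∀ n, ∃ y, y ∈ τ ∩ σ (n + N) := fun n =>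
      hmeet τ hτ (n + N) (hτr.mono (by linarith [hN (n + N) (by omega)])
        (by linarith [hN (n + N) (by omega)]))
    choose y hy using hex
    have hyl : Tendsto y atTop (𝓝 p) := by
      have h1 : Tendsto (fun n => x (n + N)) atTop (𝓝 p) := hpl.comp (tendsto_add_atTop_nat N)
      refine (tendsto_iff_of_dist ?_).1 h1
      refine squeeze_zero (fun n => dist_nonneg)
        (fun n => hdist (n + N) (x (n + N)) (hx _) (y n) (hy n).2) ?_
      have := (hnl.comp (tendsto_add_atTop_nat N)).const_mul (2 * M)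
      simpa using this
    exact hτ.cpt.isClosed.mem_of_tendsto hyl (Eventually.of_forall fun n => (hy n).1)

theorem arcStmt : ArcStmt := by
  intro κ f M c d hk hp hf hM hw hcd hr hu
  have hex : ∀ t : ℝ, ∃ p : ℂ, t ∈ Ioo c d → p ∈ κ ∧ f p = t ∧
      ∀ σ, Sc κ σ → ∀ h > (0 : ℝ), Reach f σ (t - h) (t + h) → p ∈ σ := by
    intro t
    by_cases ht : t ∈ Ioo c d
    · obtain ⟨p, h1, h2, h3⟩ := point hk hp hf hM hw hr hu ht
      exact ⟨p, fun _ => ⟨h1, h2, h3⟩⟩
    · exact ⟨0, fun h => absurd h ht⟩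
  choose p hp' using hex
  have key : ∀ t ∈ Ioo c d, ∀ t' ∈ Ioo c d, t ≤ t' → dist (p t) (p t') ≤ M * (t' - t) := by
    intro t ht t' ht' htt
    refine le_of_forall_pos_le_add fun ε hε => ?_
    set h : ℝ := min (min (t - c) (d - t')) (ε / (2 * M)) with hh
    have hhp : 0 < h := lt_min (lt_min (by linarith [ht.1]) (by linarith [ht'.2])) (by positivity)
    have h1 : h ≤ t - c := (min_le_left _ _).trans (min_le_left _ _)
    have h2 : h ≤ d - t' := (min_le_left _ _).trans (min_le_right _ _)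
    have h3 : h ≤ ε / (2 * M) := min_le_right _ _
    obtain ⟨τ, hτ, hτr, hτI⟩ := cross hk hp hf (s := t - h) (s' := t' + h) (by linarith)
      (hr.mono (by linarith) (by linarith))
    have ha := (hp' t ht).2.2 τ hτ h hhp (hτr.mono le_rfl (by linarith))
    have hb := (hp' t' ht').2.2 τ hτ h hhp (hτr.mono (by linarith) le_rfl)
    have h4 := wid_band hM hw hτ hτI ha hb
    have h5 : h * (2 * M) ≤ ε := by
      rwa [le_div_iff₀ (by positivity)] at h3
    calc dist (p t) (p t') ≤ M * (t' + h - (t - h)) := h4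
      _ = M * (t' - t) + h * (2 * M) := by ring
      _ ≤ M * (t' - t) + ε := by linarith
  refine ⟨p, ⟨M, hM.le⟩, (2 * c + d) / 3, (c + 2 * d) / 3, by linarith, ?_, ?_⟩
  · refine LipschitzOnWith.of_dist_le_mul fun t ht t' ht' => ?_
    have i1 : t ∈ Ioo c d := ⟨by linarith [ht.1], by linarith [ht.2]⟩
    have i2 : t' ∈ Ioo c d := ⟨by linarith [ht'.1], by linarith [ht'.2]⟩
    rcases le_total t t' with h | h
    · have := key t i1 t' i2 h
      rw [Real.dist_eq, abs_sub_comm, abs_of_nonneg (by linarith)]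
      exact this
    · have := key t' i2 t i1 h
      rw [Real.dist_eq, abs_of_nonneg (by linarith), dist_comm]
      exact this
  · intro t ht
    have i1 : t ∈ Ioo c d := ⟨by linarith [ht.1], by linarith [ht.2]⟩
    exact ⟨(hp' t i1).1, (hp' t i1).2.1⟩

end Pool.Agent.H81.PS
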