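import Pool.Agent.H81.PS.Stm

/-!
Generic slices of wandering continua are perfect (problem MP_90715c_gt): the Baire category step.
-/

open Set Filter Topology TopologicalSpace

namespace Pool.Agent.H81.PS

/-- Levels of isolated points of slices, with a witness ball. -/
def TT (A : Set ℂ) (f : ℂ → ℝ) (q : ℂ) (r : ℝ) : Set ℝ :=
  {t | ∃ x ∈ A, f x = t ∧ dist x q < r / 2 ∧ ∀ y ∈ A, dist y q ≤ r → f y = t → y = x}

/-- The ball is small enough for the width estimate. -/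
def Good (A : Set ℂ) (f : ℂ → ℝ) (q : ℂ) (r : ℝ) : Prop :=
  0 < r ∧ ∃ M > (0 : ℝ), Wid (A ∩ Metric.closedBall q r) f M

theorem wid_mono {A B : Set ℂ} (h : A ⊆ B) {f : ℂ → ℝ} {M : ℝ} (hw : Wid B f M) :
    Wid A f M :=
  fun κ hκ => hw κ ⟨hκ.sub.trans h, hκ.cpt, hκ.conn⟩

theorem tt_cover {A : Set ℂ} {f : ℂ → ℝ}
    (hloc : ∀ p ∈ A, ∃ ρ > (0 : ℝ), ∃ M > (0 : ℝ), Wid (A ∩ Metric.closedBall p ρ) f M)
    {t : ℝ} (ht : t ∈ IsoLev A f) :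
    ∃ m n : ℕ, Good A f (denseSeq ℂ m) (1 / ((n : ℝ) + 1)) ∧
      t ∈ TT A f (denseSeq ℂ m) (1 / ((n : ℝ) + 1)) := by
  obtain ⟨x, hx, hft, r0, hr0, huniq⟩ := ht
  obtain ⟨ρ, hρ, M, hM, hw⟩ := hloc x hx
  obtain ⟨n, hn⟩ := exists_nat_one_div_lt (show (0 : ℝ) < min ρ r0 / 2 from
    half_pos (lt_min hρ hr0))
  have hr : (0 : ℝ) < 1 / ((n : ℝ) + 1) := by positivity
  obtain ⟨m, hm⟩ := (denseRange_denseSeq ℂ).exists_dist_lt x
    (show (0 : ℝ) < 1 / ((n : ℝ) + 1) / 2 from half_pos hr)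
  refine ⟨m, n, ⟨hr, M, hM, wid_mono ?_ hw⟩, x, hx, hft, hm, ?_⟩
  · rintro z ⟨hz, hz'⟩
    refine ⟨hz, ?_⟩
    rw [Metric.mem_closedBall] at hz' ⊢
    have h1 := dist_triangle z (denseSeq ℂ m) x
    rw [dist_comm (denseSeq ℂ m) x] at h1
    have h2 := min_le_left ρ r0
    linarith
  · intro y hy hyq hfy
    apply huniq y hy hfy
    have h1 := dist_triangle y (denseSeq ℂ m) x
    rw [dist_comm (denseSeq ℂ m) x] at h1
    have h2 := min_le_right ρ r0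
    linarith

theorem exists_good {A : Set ℂ} {f : ℂ → ℝ}
    (hloc : ∀ p ∈ A, ∃ ρ > (0 : ℝ), ∃ M > (0 : ℝ), Wid (A ∩ Metric.closedBall p ρ) f M)
    (hnm : ¬ IsMeagre (IsoLev A f)) :
    ∃ q r, Good A f q r ∧ (interior (closure (TT A f q r))).Nonempty := by
  by_contra hcon
  apply hnm
  have hsub : IsoLev A f ⊆ ⋃ j : ℕ × ℕ, {t | Good A f (denseSeq ℂ j.1) (1 / ((j.2 : ℝ) + 1)) ∧
      t ∈ TT A f (denseSeq ℂ j.1) (1 / ((j.2 : ℝ) + 1))} := by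
    intro t ht
    obtain ⟨m, n, h1, h2⟩ := tt_cover hloc ht
    exact mem_iUnion.mpr ⟨(m, n), h1, h2⟩
  refine IsMeagre.mono hsub (isMeagre_iUnion fun j => ?_)
  by_cases hg : Good A f (denseSeq ℂ j.1) (1 / ((j.2 : ℝ) + 1))
  · have hnd : IsNowhereDense (TT A f (denseSeq ℂ j.1) (1 / ((j.2 : ℝ) + 1))) := by
      rw [IsNowhereDense]
      by_contra hne
      exact hcon ⟨_, _, hg, nonempty_iff_ne_empty.mpr hne⟩
    exact IsMeagre.mono (fun t ht => ht.2) hnd.isMeagre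
  · have he : {t | Good A f (denseSeq ℂ j.1) (1 / ((j.2 : ℝ) + 1)) ∧
        t ∈ TT A f (denseSeq ℂ j.1) (1 / ((j.2 : ℝ) + 1))} = ∅ := by
      exact eq_empty_of_forall_notMem fun t ht => hg ht.1
    rw [he]
    exact IsMeagre.empty

theorem ivt_level {κ σ : Set ℂ} {f : ℂ → ℝ} (hf : ContinuousOn f κ) (hσ : Sc κ σ) {c d t : ℝ}
    (hR : Reach f σ c d) (hc : c ≤ t) (hd : t ≤ d) : ∃ y ∈ σ, f y = t := by
  obtain ⟨⟨u, hu, hfu⟩, v, hv, hfv⟩ := hR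
  obtain ⟨y, hy, hfy⟩ := hσ.conn.intermediate_value hu hv (hf.mono hσ.sub)
    (show t ∈ Icc (f u) (f v) from ⟨hfu.trans hc, hd.trans hfv⟩)
  exact ⟨y, hy, hfy⟩

theorem baireStmt : BaireStmt := by
  intro A hAc hAp hAn f hf hloc hnm
  obtain ⟨q, r, ⟨hr, M, hM, hw⟩, s, hs⟩ := exists_good hloc hnm
  obtain ⟨t, htJ, x, hx, hft, hxq, hxu⟩ :=
    mem_closure_iff.mp (interior_subset hs) _ isOpen_interior hs
  have hbump : ∃ κ, Sc A κ ∧ x ∈ κ ∧ (∀ z ∈ κ, dist x z ≤ r / 2) ∧ ∃ y ∈ κ, y ≠ x := by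
    by_cases h : ∃ y ∈ A, r / 2 ≤ dist x y
    · obtain ⟨κ, h1, h2, h3, h4, h5, y, h6, h7⟩ :=
        Pool.Agent.H90.WC.bump hAc hAp hx (half_pos hr) h
      refine ⟨κ, ⟨h1, h2, h3⟩, h4, h5, y, h6, ?_⟩
      rintro rfl
      rw [dist_self] at h7
      linarith
    · push Not at h
      obtain ⟨y, hy, hyx⟩ := hAn.exists_ne x
      exact ⟨A, ⟨Subset.rfl, hAc, hAp⟩, hx, fun z hz => (h z hz).le, y, hy, hyx⟩
  obtain ⟨κ, hκ, hxκ, hκr, y, hy, hyx⟩ := hbump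
  have hκq : ∀ z ∈ κ, dist z q ≤ r := by
    intro z hz
    have h1 := dist_triangle z x q
    have h2 := hκr z hz
    rw [dist_comm x z] at h2
    linarith
  have hsubq : κ ⊆ A ∩ Metric.closedBall q r := fun z hz => ⟨hκ.sub hz, hκq z hz⟩
  have hκw : Wid κ f M := wid_mono hsubq hw
  have hκκ : Sc κ κ := ⟨Subset.rfl, hκ.cpt, hκ.conn⟩
  obtain ⟨z, hz, w, hzw, hd⟩ := hκw κ hκκ x hxκ y hy
  have hpos : 0 < dist x y := dist_pos.mpr (Ne.symm hyx)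
  have hlt : f w < f z := by
    by_contra hcon
    push Not at hcon
    have h1 : M * (f z - f w) ≤ 0 := mul_nonpos_of_nonneg_of_nonpos hM.le (by linarith)
    linarith
  obtain ⟨ε, hε, hball⟩ := Metric.isOpen_iff.mp isOpen_interior t htJ
  have hcd : ∃ c d, c < d ∧ Reach f κ c d ∧
      Icc c d ⊆ interior (closure (TT A f q r)) := by
    rcases lt_or_ge t (f z) with h | h
    · refine ⟨t, min (f z) (t + ε / 2), lt_min h (by linarith), ⟨⟨x, hxκ, hft.le⟩, z, hz,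
        min_le_left _ _⟩, ?_⟩
      intro u hu
      apply hball
      rw [Metric.mem_ball, Real.dist_eq, abs_lt]
      have h1 := hu.1
      have h2 := hu.2.trans (min_le_right _ _)
      constructor <;> linarith
    · have h' : f w < t := lt_of_lt_of_le hlt h
      refine ⟨max (f w) (t - ε / 2), t, max_lt h' (by linarith), ⟨⟨w, hzw, le_max_left _ _⟩,
        x, hxκ, hft.ge⟩, ?_⟩
      intro u hu
      apply hball
      rw [Metric.mem_ball, Real.dist_eq, abs_lt]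
      have h1 := (le_max_right (f w) (t - ε / 2)).trans hu.1
      have h2 := hu.2
      constructor <;> linarith
  obtain ⟨c, d, hclt, hR, hJ⟩ := hcd
  refine ⟨κ, hκ, M, hM, hκw, c, d, hclt, hR, ?_⟩
  intro c' d' hcc hcd' hdd σ₀ σ₁ hσ₀ hσ₁ hR₀ hR₁
  have hmid : (c' + d') / 2 ∈ closure (TT A f q r) :=
    interior_subset (hJ ⟨by linarith, by linarith⟩)
  obtain ⟨t', ⟨ht1, ht2⟩, x', hx', hft', hxq', hxu'⟩ :=
    mem_closure_iff.mp hmid (Ioo c' d') isOpen_Ioo ⟨by linarith, by linarith⟩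
  have hfκ : ContinuousOn f κ := hf.mono hκ.sub
  obtain ⟨y₀, hy₀, hf₀⟩ := ivt_level hfκ hσ₀ hR₀ ht1.le ht2.le
  obtain ⟨y₁, hy₁, hf₁⟩ := ivt_level hfκ hσ₁ hR₁ ht1.le ht2.le
  have e₀ : y₀ = x' := hxu' y₀ (hκ.sub (hσ₀.sub hy₀)) (hκq _ (hσ₀.sub hy₀)) hf₀
  have e₁ : y₁ = x' := hxu' y₁ (hκ.sub (hσ₁.sub hy₁)) (hκq _ (hσ₁.sub hy₁)) hf₁
  exact ⟨x', e₀ ▸ hy₀, e₁ ▸ hy₁⟩

end Pool.Agent.H81.PS
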