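import Pool.Agent.H81.PS.Stm2

/-!
Covers from small dimension (project PS2, problem MP_90715c_gt).
-/

open Set Filter Topology MeasureTheory
open scoped ENNReal NNReal

namespace Pool.Agent.H81.PS

theorem covDimStmt : CovDimStmt := by
  intro X c hX hc hdim C hC
  have h0 : μH[c] X = 0 := by
    have h1 : dimH X < ((Real.toNNReal c : ℝ≥0) : ℝ≥0∞) := hdim
    have h2 := hausdorffMeasure_of_dimH_lt h1
    rwa [Real.coe_toNNReal c hc.le] at h2
  rw [Measure.hausdorffMeasure_apply] at h0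
  have h1 : (⨅ (t : ℕ → Set ℂ) (_ : X ⊆ ⋃ n, t n) (_ : ∀ n, Metric.ediam (t n) ≤ 1),
      ∑' n, ⨆ _ : (t n).Nonempty, Metric.ediam (t n) ^ c) = 0 := by
    refine le_antisymm ?_ bot_le
    rw [← h0]
    exact le_iSup₂_of_le 1 one_pos le_rfl
  have hε : (0 : ℝ≥0∞) < ENNReal.ofReal (C / 4) := by
    rw [ENNReal.ofReal_pos]; positivity
  rw [← h1] at hε
  simp only [iInf_lt_iff] at hε
  obtain ⟨t, ht, hd, hs⟩ := hε
  classical
  set S : ℕ → ℝ≥0∞ := fun n => ⨆ _ : (t n).Nonempty, Metric.ediam (t n) ^ c with hS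
  set D : ℕ → ℝ := fun n => if (t n).Nonempty then (Metric.ediam (t n)).toReal else 0 with hD
  set x : ℕ → ℂ := fun n => if h : (t n).Nonempty then h.some else 0 with hx
  have hD0 : ∀ n, 0 ≤ D n := by
    intro n
    simp only [hD]
    split_ifs
    · exact ENNReal.toReal_nonneg
    · exact le_rfl
  have hSD : ∀ n, (S n).toReal = D n ^ c := by
    intro n
    by_cases hn : (t n).Nonempty
    · simp only [hS, hD, hn, iSup_pos, if_true]
      rw [ENNReal.toReal_rpow]
    · simp only [hS, hD, hn, if_false]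
      rw [iSup_neg (by simp)]
      rw [Real.zero_rpow hc.ne']
      rfl
  set ρ : ℕ → ℝ := fun n => (D n ^ c + (C / 4) * (1 / 2) ^ (n + 1)) ^ (1 / c) with hρ
  have hbase : ∀ n, 0 < D n ^ c + (C / 4) * (1 / 2 : ℝ) ^ (n + 1) := by
    intro n
    have := Real.rpow_nonneg (hD0 n) c
    positivity
  have hρc : ∀ n, ρ n ^ c = D n ^ c + (C / 4) * (1 / 2) ^ (n + 1) := by
    intro n
    simp only [hρ]
    rw [← Real.rpow_mul (hbase n).le, one_div_mul_cancel hc.ne', Real.rpow_one]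
  have hρ0 : ∀ n, 0 < ρ n := fun n => Real.rpow_pos_of_pos (hbase n) _
  have hDρ : ∀ n, D n < ρ n := by
    intro n
    rw [← Real.rpow_lt_rpow_iff (hD0 n) (hρ0 n).le hc, hρc n]
    have : (0 : ℝ) < (C / 4) * (1 / 2) ^ (n + 1) := by positivity
    linarith
  have htb : ∀ n, t n ⊆ Metric.ball (x n) (ρ n) := by
    intro n z hz
    have hn : (t n).Nonempty := ⟨z, hz⟩
    have hxn : x n ∈ t n := by
      simp only [hx, hn, dif_pos]
      exact hn.some_mem
    rw [Metric.mem_ball]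
    refine lt_of_le_of_lt ?_ (hDρ n)
    have hDn : D n = (Metric.ediam (t n)).toReal := by simp only [hD, hn, if_true]
    rw [hDn]
    have hfin : Metric.ediam (t n) ≠ ⊤ := ne_top_of_le_ne_top ENNReal.one_ne_top (hd n)
    have he : edist z (x n) ≤ Metric.ediam (t n) := Metric.edist_le_ediam_of_mem hz hxn
    rw [dist_edist]
    exact ENNReal.toReal_mono hfin he
  obtain ⟨F, hF⟩ := hX.elim_finite_subcover (fun n => Metric.ball (x n) (ρ n))
    (fun n => Metric.isOpen_ball) (ht.trans (iUnion_mono htb))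
  have hcov : ∀ z ∈ X, ∃ i ∈ F, dist z (x i) < ρ i := by
    intro z hz
    have := hF hz
    simp only [mem_iUnion, Metric.mem_ball] at this
    obtain ⟨i, hi, h⟩ := this
    exact ⟨i, hi, h⟩
  have hsum : ∑ i ∈ F, ρ i ^ c < C := by
    have e1 : ∑ i ∈ F, ρ i ^ c = ∑ i ∈ F, (S i).toReal + (C / 4) * ∑ i ∈ F, (1 / 2 : ℝ) ^ (i + 1) := by
      rw [Finset.mul_sum, ← Finset.sum_add_distrib]
      refine Finset.sum_congr rfl fun i _ => ?_
      rw [hρc i, hSD i]
    have hSt : (∑' n, S n) ≠ ⊤ := ne_top_of_lt hs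
    have hSi : ∀ i ∈ F, S i ≠ ⊤ := fun i _ => ENNReal.ne_top_of_tsum_ne_top hSt i
    have e2 : ∑ i ∈ F, (S i).toReal < C / 4 := by
      rw [← ENNReal.toReal_sum hSi]
      have h3 : ∑ i ∈ F, S i < ENNReal.ofReal (C / 4) := lt_of_le_of_lt (ENNReal.sum_le_tsum F) hs
      have h4 := (ENNReal.toReal_lt_toReal (ne_top_of_lt h3) ENNReal.ofReal_ne_top).2 h3
      rwa [ENNReal.toReal_ofReal (by positivity)] at h4
    have e3 : ∑ i ∈ F, (1 / 2 : ℝ) ^ (i + 1) ≤ 1 := by
      have h5 : HasSum (fun n : ℕ => (1 / 2 : ℝ) ^ (n + 1)) 1 := by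
        have := hasSum_geometric_two.mul_right (1 / 2 : ℝ)
        simpa [pow_succ] using this
      exact sum_le_hasSum F (fun i _ => by positivity) h5
    rw [e1]
    nlinarith [mul_le_mul_of_nonneg_left e3 (show (0 : ℝ) ≤ C / 4 by positivity)]
  rcases F.eq_empty_or_nonempty with hFe | hFn
  · refine ⟨1, one_pos, F, x, ρ, ?_, hcov, hsum⟩
    intro i hi
    rw [hFe] at hi
    simp at hi
  · obtain ⟨j, hj, hmin⟩ := Finset.exists_min_image F ρ hFn
    exact ⟨ρ j, hρ0 j, F, x, ρ, hmin, hcov, hsum⟩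

end Pool.Agent.H81.PS
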