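import Mathlib

/-!
The Eilenberg inequality for slices of sets of small dimension (problem MP_90715c_gt).
-/

open Set Filter Topology MeasureTheory Metric
open scoped ENNReal NNReal

namespace Pool.Agent.H81.PS

theorem exists_cover {A : Set ℂ} {d : ℝ} (h0 : μH[d] A = 0) {r ε : ℝ≥0∞} (hr : 0 < r)
    (hε : 0 < ε) : ∃ t : ℕ → Set ℂ, A ⊆ ⋃ n, t n ∧ (∀ n, ediam (t n) ≤ r) ∧
      ∑' n, ⨆ _ : (t n).Nonempty, ediam (t n) ^ d < ε := by
  rw [Measure.hausdorffMeasure_apply] at h0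
  have h1 : (⨅ (t : ℕ → Set ℂ) (_ : A ⊆ ⋃ n, t n) (_ : ∀ n, ediam (t n) ≤ r),
      ∑' n, ⨆ _ : (t n).Nonempty, ediam (t n) ^ d) ≤ 0 := by
    rw [← h0]
    exact le_iSup₂ (f := fun (r : ℝ≥0∞) (_ : 0 < r) =>
      ⨅ (t : ℕ → Set ℂ) (_ : A ⊆ ⋃ n, t n) (_ : ∀ n, ediam (t n) ≤ r),
        ∑' n, ⨆ _ : (t n).Nonempty, ediam (t n) ^ d) r hr
  have h2 := lt_of_le_of_lt h1 hε
  simp only [iInf_lt_iff] at h2
  obtain ⟨t, ht, hd, hlt⟩ := h2
  exact ⟨t, ht, hd, hlt⟩

/-- The interval of levels met by a small set. -/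
noncomputable def lev (f : ℂ → ℝ) (U : Set ℂ) : Set ℝ :=
  open Classical in if h : U.Nonempty then closedEBall (f h.some) (ediam U) else ∅

theorem lev_measurable (f : ℂ → ℝ) (U : Set ℂ) : MeasurableSet (lev f U) := by
  unfold lev
  split_ifs with h
  · exact isClosed_closedEBall.measurableSet
  · exact MeasurableSet.empty

theorem vol_lev_le (f : ℂ → ℝ) (U : Set ℂ) : volume (lev f U) ≤ 2 * ediam U := by
  unfold lev
  split_ifs with h
  · exact (Real.volume_closedEBall _ _).le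
  · simp

theorem mem_lev {A U : Set ℂ} {f : ℂ → ℝ} (hf : ∀ z ∈ A, ∀ w ∈ A, |f z - f w| ≤ dist z w)
    (hU : U ⊆ A) {z : ℂ} (hz : z ∈ U) : f z ∈ lev f U := by
  have h : U.Nonempty := ⟨z, hz⟩
  unfold lev
  rw [dif_pos h, mem_closedEBall]
  have h1 : edist z h.some ≤ ediam U := edist_le_ediam_of_mem hz h.some_mem
  refine le_trans ?_ h1
  rw [edist_dist, edist_dist, Real.dist_eq]
  exact ENNReal.ofReal_le_ofReal (hf z (hU hz) _ (hU h.some_mem))

theorem eil (A : Set ℂ) (f : ℂ → ℝ) (c : ℝ) (hc : 0 < c)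
    (hf : ∀ z ∈ A, ∀ w ∈ A, |f z - f w| ≤ dist z w) (hA : dimH A < ENNReal.ofReal (1 + c)) :
    ∀ᵐ t : ℝ, dimH (A ∩ f ⁻¹' {t}) ≤ ENNReal.ofReal c := by
  have hc1 : (0 : ℝ) ≤ 1 + c := by linarith
  have h0 : μH[1 + c] A = 0 := by
    have h1 : dimH A < ((1 + c).toNNReal : ℝ≥0∞) := hA
    have h2 := hausdorffMeasure_of_dimH_lt h1
    rwa [Real.coe_toNNReal _ hc1] at h2
  obtain ⟨ε, hε, hεs⟩ := ENNReal.exists_pos_sum_of_countable' (one_ne_zero (α := ℝ≥0∞)) ℕ
  have hcov : ∀ k : ℕ, ∃ U : ℕ → Set ℂ, (∀ i, U i ⊆ A) ∧ A ⊆ ⋃ i, U i ∧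
      (∀ i, ediam (U i) ≤ (k : ℝ≥0∞)⁻¹) ∧ ∑' i, ediam (U i) ^ (1 + c) ≤ ε k := by
    intro k
    obtain ⟨t, ht, hd, hlt⟩ := exists_cover h0
      (ENNReal.inv_pos.mpr (ENNReal.natCast_ne_top k)) (hε k)
    have hsub : ∀ i, ediam (t i ∩ A) ≤ ediam (t i) := fun i => ediam_mono inter_subset_left
    refine ⟨fun i => t i ∩ A, fun i => inter_subset_right, ?_, fun i => (hsub i).trans (hd i), ?_⟩
    · intro z hz
      obtain ⟨i, hi⟩ := mem_iUnion.mp (ht hz)
      exact mem_iUnion.mpr ⟨i, hi, hz⟩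
    · refine le_trans (ENNReal.tsum_le_tsum fun i => ?_) hlt.le
      change ediam (t i ∩ A) ^ (1 + c) ≤ _
      rcases (t i ∩ A).eq_empty_or_nonempty with h | h
      · rw [h, ediam_empty, ENNReal.zero_rpow_of_pos (by linarith)]
        exact zero_le
      · exact le_trans (ENNReal.rpow_le_rpow (hsub i) hc1)
          (le_iSup (fun _ : (t i).Nonempty => ediam (t i) ^ (1 + c)) (h.mono inter_subset_left))
  choose U hUA hUc hUd hUs using hcov
  let g : ℕ → ℝ → ℝ≥0∞ := fun k t => ∑' i, (lev f (U k i)).indicator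
    (fun _ => ediam (U k i) ^ c) t
  have hgm : ∀ k, Measurable (g k) := fun k =>
    Measurable.tsum fun i => measurable_const.indicator (lev_measurable f _)
  have hgi : ∀ k, ∫⁻ t, g k t ≤ 2 * ε k := by
    intro k
    have e1 : ∫⁻ t, g k t = ∑' i, ediam (U k i) ^ c * volume (lev f (U k i)) := by
      rw [lintegral_tsum fun i =>
        (measurable_const.indicator (lev_measurable f (U k i))).aemeasurable]
      refine tsum_congr fun i => ?_
      rw [lintegral_indicator_const (lev_measurable f _)]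
    rw [e1]
    refine le_trans (ENNReal.tsum_le_tsum fun i => ?_)
      (le_trans (ENNReal.tsum_mul_left (a := 2) (f := fun i => ediam (U k i) ^ (1 + c))).le
        (mul_le_mul_right (hUs k) 2))
    have e2 : ediam (U k i) ^ (1 + c) = ediam (U k i) * ediam (U k i) ^ c := by
      rw [ENNReal.rpow_add_of_nonneg _ _ zero_le_one hc.le, ENNReal.rpow_one]
    rw [e2]
    calc ediam (U k i) ^ c * volume (lev f (U k i))
        ≤ ediam (U k i) ^ c * (2 * ediam (U k i)) := mul_le_mul_right (vol_lev_le f _) _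
      _ = 2 * (ediam (U k i) * ediam (U k i) ^ c) := by ring
  have htot : ∫⁻ t, ∑' k, g k t ≠ ∞ := by
    rw [lintegral_tsum fun k => (hgm k).aemeasurable]
    refine ne_top_of_le_ne_top ?_ (ENNReal.tsum_le_tsum hgi)
    rw [ENNReal.tsum_mul_left]
    exact ENNReal.mul_ne_top ENNReal.ofNat_ne_top (ne_top_of_lt hεs)
  have hae := ae_lt_top (Measurable.tsum hgm) htot
  filter_upwards [hae] with t ht
  have hlim := ENNReal.tendsto_atTop_zero_of_tsum_ne_top ht.ne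
  have hz : μH[c] (A ∩ f ⁻¹' {t}) = 0 := by
    rw [Measure.hausdorffMeasure_apply]
    refine le_antisymm (iSup₂_le fun r hr => ?_) zero_le
    refine ge_of_tendsto hlim ?_
    have hev : ∀ᶠ k : ℕ in atTop, (k : ℝ≥0∞)⁻¹ ≤ r :=
      (ENNReal.tendsto_inv_nat_nhds_zero.eventually (gt_mem_nhds hr)).mono fun k hk => hk.le
    filter_upwards [hev] with k hk
    refine iInf_le_of_le (fun i => U k i ∩ f ⁻¹' {t}) (iInf_le_of_le ?_ (iInf_le_of_le ?_ ?_))
    · rintro z ⟨hzA, hzt⟩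
      obtain ⟨i, hi⟩ := mem_iUnion.mp (hUc k hzA)
      exact mem_iUnion.mpr ⟨i, hi, hzt⟩
    · exact fun i => ((ediam_mono inter_subset_left).trans (hUd k i)).trans hk
    · refine ENNReal.tsum_le_tsum fun i => iSup_le ?_
      rintro ⟨z, hzU, hzt⟩
      have hzt' : f z = t := hzt
      have hmem : t ∈ lev f (U k i) := hzt' ▸ mem_lev hf (hUA k i) hzU
      rw [indicator_of_mem hmem]
      exact ENNReal.rpow_le_rpow (ediam_mono inter_subset_left) hc.le
  have hfin : μH[((c.toNNReal : ℝ≥0) : ℝ)] (A ∩ f ⁻¹' {t}) ≠ ∞ := by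
    rw [Real.coe_toNNReal _ hc.le, hz]
    exact ENNReal.zero_ne_top
  exact dimH_le_of_hausdorffMeasure_ne_top hfin

end Pool.Agent.H81.PS
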