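import Pool.Agent.H81.PS.Stm2
import Pool.Agent.H81.PS.ArcP

/-!
Almost all slices of wandering continua have positive dimension (problem MP_90715c_gt):
almost all slices have positive content.
-/

open Set Filter Topology MeasureTheory

namespace Pool.Agent.H81.PS

lemma Str.sc {M e : ℝ} {f : ℂ → ℝ} {κ σ : Set ℂ} (h : Str M e f κ) (hs : Sc κ σ) :
    Str M e f σ where
  cpt := hs.cpt
  conn := hs.conn
  lip := fun z hz w hw => h.lip z (hs.sub hz) w (hs.sub hw)
  wid := fun τ hτ => h.wid τ ⟨hτ.sub.trans hs.sub, hτ.cpt, hτ.conn⟩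
  wig := fun τ hτ => h.wig τ ⟨hτ.sub.trans hs.sub, hτ.cpt, hτ.conn⟩

lemma Str.cont {M e : ℝ} {f : ℂ → ℝ} {κ : Set ℂ} (h : Str M e f κ) : ContinuousOn f κ := by
  have : LipschitzOnWith 1 f κ := LipschitzOnWith.of_dist_le_mul fun z hz w hw => by
    rw [Real.dist_eq]
    simpa using h.lip z hz w hw
  exact this.continuousOn

lemma Cov.mono {X : Set ℂ} {c r r' C : ℝ} (h : Cov X c r C) (hr : r' ≤ r) : Cov X c r' C := by
  obtain ⟨F, x, ρ, h1, h2, h3⟩ := h
  exact ⟨F, x, ρ, fun i hi => hr.trans (h1 i hi), h2, h3⟩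

/-- Levels in `(a, b)` whose slices have cheap covers at depth `k`. -/
def MS (f : ℂ → ℝ) (κ : Set ℂ) (c : ℝ) (n k : ℕ) (a b L : ℝ) : Set ℝ :=
  {t | t ∈ Ioo a b ∧ Cov (κ ∩ f ⁻¹' {t}) c ((b - a) / (n : ℝ) ^ k) (L * (b - a) ^ c)}

lemma ms_triv {f : ℂ → ℝ} {κ : Set ℂ} {c : ℝ} {n k : ℕ} {a b L C : ℝ} (hab : a < b)
    (hC : 1 ≤ C * L ^ 2) :
    volume (MS f κ c n k a b L) ≤ ENNReal.ofReal (C * L ^ 2 * (b - a)) := by
  calc volume (MS f κ c n k a b L) ≤ volume (Ioo a b) := measure_mono fun t ht => ht.1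
    _ = ENNReal.ofReal (b - a) := Real.volume_Ioo
    _ ≤ _ := ENNReal.ofReal_le_ofReal (by nlinarith)

lemma ms_zero {M e : ℝ} {f : ℂ → ℝ} {κ : Set ℂ} {c : ℝ} {n : ℕ} {a b L : ℝ}
    (hs : Str M e f κ) (hab : a < b) (hr : Reach f κ a b) (hc : 0 < c) (hL : L ≤ 1) :
    MS f κ c n 0 a b L = ∅ := by
  rw [eq_empty_iff_forall_notMem]
  rintro t ⟨ht, F, x, ρ, h1, h2, h3⟩
  obtain ⟨⟨u, hu, hu'⟩, v, hv, hv'⟩ := hr
  obtain ⟨z, hz, hzt⟩ := hs.conn.intermediate_value hu hv hs.cont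
    ⟨hu'.trans ht.1.le, ht.2.le.trans hv'⟩
  obtain ⟨i, hi, -⟩ := h2 z ⟨hz, hzt⟩
  have h0 : 0 < b - a := by linarith
  have hr : ∀ j ∈ F, b - a ≤ ρ j := fun j hj => by simpa using h1 j hj
  have h4 : (b - a) ^ c ≤ ρ i ^ c := Real.rpow_le_rpow h0.le (hr i hi) hc.le
  have h5 : ρ i ^ c ≤ ∑ j ∈ F, ρ j ^ c := Finset.single_le_sum (f := fun j => ρ j ^ c)
    (fun j hj => Real.rpow_nonneg (h0.le.trans (hr j hj)) c) hi
  have h6 : L * (b - a) ^ c ≤ 1 * (b - a) ^ c :=
    mul_le_mul_of_nonneg_right hL (Real.rpow_nonneg h0.le c)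
  linarith

lemma cell_eq {c : ℝ} {n : ℕ} {a b L s s' : ℝ} (hn : 0 < n) (hab : a < b)
    (hs : s' - s = (b - a) / n) : L * (n : ℝ) ^ c * (s' - s) ^ c = L * (b - a) ^ c := by
  have hn' : (0 : ℝ) < n := by exact_mod_cast hn
  have h1 : (0 : ℝ) < (n : ℝ) ^ c := Real.rpow_pos_of_pos hn' c
  rw [hs, Real.div_rpow (by linarith) hn'.le]
  field_simp

lemma cell_eq' {n k : ℕ} {a b s s' : ℝ} (hn : 0 < n)
    (hs : s' - s = (b - a) / n) : (s' - s) / (n : ℝ) ^ k = (b - a) / (n : ℝ) ^ (k + 1) := by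
  have hn' : (0 : ℝ) < n := by exact_mod_cast hn
  rw [hs, pow_succ']
  field_simp

lemma ms_cell {f : ℂ → ℝ} {κ : Set ℂ} {c : ℝ} {n k : ℕ} {a b L s s' t : ℝ} (hn : 0 < n)
    (hab : a < b) (hs : s' - s = (b - a) / n) (ht : t ∈ MS f κ c n (k + 1) a b L)
    (hts : t ∈ Ioo s s') : t ∈ MS f κ c n k s s' (L * (n : ℝ) ^ c) := by
  refine ⟨hts, ?_⟩
  rw [cell_eq hn hab hs, cell_eq' hn hs]
  exact ht.2

lemma ms_split {f : ℂ → ℝ} {κ σ₀ σ₁ : Set ℂ} {c δ : ℝ} {n k : ℕ} {a b L s s' t : ℝ} (hn : 0 < n)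
    (hab : a < b) (hs : s' - s = (b - a) / n) (hc : 0 < c) (hδ : 0 < δ) (hL : L ≤ (δ / 2) ^ c)
    (h0 : σ₀ ⊆ κ) (h1 : σ₁ ⊆ κ) (hd : ∀ u ∈ σ₀, ∀ v ∈ σ₁, δ * (b - a) ≤ dist u v)
    (ht : t ∈ MS f κ c n (k + 1) a b L) (hts : t ∈ Ioo s s') :
    t ∈ MS f σ₀ c n k s s' (L * (n : ℝ) ^ c / 2) ∪ MS f σ₁ c n k s s' (L * (n : ℝ) ^ c / 2) := by
  classical
  have hn' : (0 : ℝ) < n := by exact_mod_cast hn
  obtain ⟨-, F, x, ρ, hρ, hcov, hsum⟩ := ht
  have hh : 0 < b - a := by linarith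
  have hr0 : 0 < (b - a) / (n : ℝ) ^ (k + 1) := by positivity
  have hρ0 : ∀ i ∈ F, 0 < ρ i := fun i hi => hr0.trans_le (hρ i hi)
  have hsmall : ∀ i ∈ F, ρ i < δ * (b - a) / 2 := by
    intro i hi
    by_contra hcon
    push Not at hcon
    have e1 : (δ * (b - a) / 2) ^ c ≤ ρ i ^ c := Real.rpow_le_rpow (by positivity) hcon hc.le
    have e2 : ρ i ^ c ≤ ∑ j ∈ F, ρ j ^ c := Finset.single_le_sum (f := fun j => ρ j ^ c)
      (fun j hj => Real.rpow_nonneg (hρ0 j hj).le c) hi
    have e3 : (δ * (b - a) / 2) ^ c = (δ / 2) ^ c * (b - a) ^ c := by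
      rw [← Real.mul_rpow (by positivity) hh.le]
      congr 1
      ring
    have e4 : L * (b - a) ^ c ≤ (δ / 2) ^ c * (b - a) ^ c :=
      mul_le_mul_of_nonneg_right hL (Real.rpow_nonneg hh.le c)
    linarith
  have hsplit := Finset.sum_filter_add_sum_filter_not F
    (fun i => ∃ z ∈ σ₀, dist z (x i) < ρ i) (fun i => ρ i ^ c)
  have e5 : L * (n : ℝ) ^ c / 2 * (s' - s) ^ c = L * (b - a) ^ c / 2 := by
    rw [← cell_eq (L := L) (c := c) hn hab hs]
    ring
  have e6 := cell_eq' (k := k) hn hs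
  rcases lt_or_ge (∑ i ∈ F.filter (fun i => ∃ z ∈ σ₀, dist z (x i) < ρ i), ρ i ^ c)
    (L * (b - a) ^ c / 2) with hlt | hge
  · left
    refine ⟨hts, ?_⟩
    rw [e5, e6]
    refine ⟨F.filter (fun i => ∃ z ∈ σ₀, dist z (x i) < ρ i), x, ρ,
      fun i hi => hρ i (Finset.mem_filter.1 hi).1, ?_, hlt⟩
    rintro z ⟨hz, hzt⟩
    obtain ⟨i, hi, hzi⟩ := hcov z ⟨h0 hz, hzt⟩
    exact ⟨i, Finset.mem_filter.2 ⟨hi, z, hz, hzi⟩, hzi⟩
  · right
    refine ⟨hts, ?_⟩
    rw [e5, e6]
    refine ⟨F.filter (fun i => ¬ ∃ z ∈ σ₀, dist z (x i) < ρ i), x, ρ,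
      fun i hi => hρ i (Finset.mem_filter.1 hi).1, ?_, by linarith⟩
    rintro z ⟨hz, hzt⟩
    obtain ⟨i, hi, hzi⟩ := hcov z ⟨h1 hz, hzt⟩
    refine ⟨i, Finset.mem_filter.2 ⟨hi, ?_⟩, hzi⟩
    rintro ⟨w, hw, hwi⟩
    have e7 := hd w hw z hz
    have e8 := dist_triangle_right w z (x i)
    have e9 := hsmall i hi
    linarith

/-- The counting estimate. -/
theorem ms_bound {M e δ : ℝ} (hδ : 0 < δ) (hδ1 : δ ≤ 1) (hS : SplitAt δ M e) {n : ℕ}
    (hn2 : 2 ≤ n) (hnδ : 2 ≤ δ * n) {c : ℝ} (hc : 0 < c)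
    (hq : ((n : ℝ) ^ c) ^ 2 * (2 * n - 1) = 2 * n) {C : ℝ} (hC : C * ((δ / 2) ^ c) ^ 2 = 1)
    (f : ℂ → ℝ) (k : ℕ) : ∀ (κ : Set ℂ) (a b L : ℝ), Str M e f κ → a < b → Reach f κ a b →
      0 < L → volume (MS f κ c n k a b L) ≤ ENNReal.ofReal (C * L ^ 2 * (b - a)) := by
  have hn : 0 < n := by omega
  have hn' : (0 : ℝ) < n := by exact_mod_cast hn
  have hn2' : (2 : ℝ) ≤ n := by exact_mod_cast hn2
  set θ : ℝ := (δ / 2) ^ c with hθ
  have hθ0 : 0 < θ := Real.rpow_pos_of_pos (by positivity) c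
  have hθ1 : θ ≤ 1 := Real.rpow_le_one (by positivity) (by linarith) hc.le
  have hC0 : 0 < C := by
    by_contra hcon
    push Not at hcon
    have : C * θ ^ 2 ≤ 0 := mul_nonpos_of_nonpos_of_nonneg hcon (by positivity)
    linarith
  have htriv : ∀ L : ℝ, θ < L → 1 ≤ C * L ^ 2 := fun L hL => by
    rw [← hC]
    exact mul_le_mul_of_nonneg_left (pow_le_pow_left₀ hθ0.le hL.le 2) hC0.le
  set q : ℝ := (n : ℝ) ^ c with hqd
  have hq0 : 0 < q := Real.rpow_pos_of_pos hn' c
  induction k with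
  | zero =>
    intro κ a b L hs hab hr hL
    rcases lt_or_ge θ L with h | h
    · exact ms_triv hab (htriv L h)
    · rw [ms_zero hs hab hr hc (h.trans hθ1)]
      simp
  | succ k ih =>
    intro κ a b L hs hab hr hL
    rcases lt_or_ge θ L with h | h
    · exact ms_triv hab (htriv L h)
    obtain ⟨u, v, hau, huv, hvb, σ₀, σ₁, h0, h1, hr0, hr1, hd⟩ := hS f κ a b hs hab hr
    have hh : 0 < b - a := by linarith
    set t : ℕ → ℝ := fun i => a + i * ((b - a) / n) with ht
    have hw : 0 < (b - a) / n := by positivity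
    have hstep : ∀ i, t (i + 1) - t i = (b - a) / n := fun i => by
      simp only [ht]
      push_cast
      ring
    have htn : t n = b := by
      simp only [ht]
      field_simp
      ring
    have htlt : ∀ i, t i < t (i + 1) := fun i => by linarith [hstep i]
    have hta : ∀ i, a ≤ t i := fun i => by
      simp only [ht]
      have : 0 ≤ (i : ℝ) * ((b - a) / n) := by positivity
      linarith
    have htb : ∀ i, i < n → t (i + 1) ≤ b := fun i hi => by
      rw [← htn]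
      simp only [ht]
      have : ((i + 1 : ℕ) : ℝ) ≤ n := by exact_mod_cast hi
      have := mul_le_mul_of_nonneg_right this hw.le
      linarith
    -- the split cell
    obtain ⟨i₀, hi₀, hui, hiv⟩ : ∃ i₀ < n, u ≤ t i₀ ∧ t (i₀ + 1) ≤ v := by
      have hA : 0 ≤ (u - a) / ((b - a) / n) := div_nonneg (by linarith) hw.le
      have hceil1 := Nat.le_ceil ((u - a) / ((b - a) / n))
      have hceil2 := Nat.ceil_lt_add_one hA
      set i₀ := ⌈(u - a) / ((b - a) / n)⌉₊ with hi₀
      have e1 : u - a ≤ i₀ * ((b - a) / n) := by rwa [div_le_iff₀ hw] at hceil1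
      have e2 : (i₀ : ℝ) * ((b - a) / n) < u - a + (b - a) / n := by
        have : (i₀ : ℝ) - 1 < (u - a) / ((b - a) / n) := by linarith
        rw [lt_div_iff₀ hw] at this
        linarith
      have e3 : 2 * ((b - a) / n) ≤ δ * (b - a) := by
        rw [mul_div_assoc', div_le_iff₀ hn']
        nlinarith
      have e4 : t (i₀ + 1) < v := by
        have := hstep i₀
        have e5 : t i₀ = a + i₀ * ((b - a) / n) := rfl
        linarith
      refine ⟨i₀, ?_, ?_, e4.le⟩
      · by_contra hcon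
        push Not at hcon
        have e6 : b ≤ t i₀ := by
          rw [← htn]
          simp only [ht]
          have : (n : ℝ) ≤ i₀ := by exact_mod_cast hcon
          have := mul_le_mul_of_nonneg_right this hw.le
          linarith
        have := htlt i₀
        linarith
      · have e5 : t i₀ = a + i₀ * ((b - a) / n) := rfl
        linarith
    set B : ℝ := C * (L * q) ^ 2 * ((b - a) / n) with hB
    have hB0 : 0 ≤ B := by positivity
    have hcell : ∀ i ∈ Finset.range n, volume (MS f κ c n (k + 1) a b L ∩ Ioo (t i) (t (i + 1))) ≤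
        ENNReal.ofReal (B + if i = i₀ then -(B / 2) else 0) := by
      intro i hi
      rw [Finset.mem_range] at hi
      by_cases hii : i = i₀
      · subst hii
        simp only [if_true]
        have e1 : MS f κ c n (k + 1) a b L ∩ Ioo (t i) (t (i + 1)) ⊆
            MS f σ₀ c n k (t i) (t (i + 1)) (L * q / 2) ∪
              MS f σ₁ c n k (t i) (t (i + 1)) (L * q / 2) := fun s hs' =>
          ms_split hn hab (hstep i) hc hδ h h0.sub h1.sub hd hs'.1 hs'.2
        have e2 := ih σ₀ (t i) (t (i + 1)) (L * q / 2) (hs.sc h0) (htlt i)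
          (hr0.mono hui hiv) (by positivity)
        have e3 := ih σ₁ (t i) (t (i + 1)) (L * q / 2) (hs.sc h1) (htlt i)
          (hr1.mono hui hiv) (by positivity)
        rw [hstep i] at e2 e3
        have e4 : 0 ≤ C * (L * q / 2) ^ 2 * ((b - a) / n) := by positivity
        calc volume (MS f κ c n (k + 1) a b L ∩ Ioo (t i) (t (i + 1)))
            ≤ volume (MS f σ₀ c n k (t i) (t (i + 1)) (L * q / 2) ∪
              MS f σ₁ c n k (t i) (t (i + 1)) (L * q / 2)) := measure_mono e1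
          _ ≤ volume (MS f σ₀ c n k (t i) (t (i + 1)) (L * q / 2)) +
              volume (MS f σ₁ c n k (t i) (t (i + 1)) (L * q / 2)) := measure_union_le _ _
          _ ≤ ENNReal.ofReal (C * (L * q / 2) ^ 2 * ((b - a) / n)) +
              ENNReal.ofReal (C * (L * q / 2) ^ 2 * ((b - a) / n)) := add_le_add e2 e3
          _ = ENNReal.ofReal (B + -(B / 2)) := by
            rw [← ENNReal.ofReal_add e4 e4]
            congr 1
            simp only [hB]
            ring
      · simp only [if_neg hii, add_zero]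
        have e1 : MS f κ c n (k + 1) a b L ∩ Ioo (t i) (t (i + 1)) ⊆
            MS f κ c n k (t i) (t (i + 1)) (L * q) := fun s hs' =>
          ms_cell hn hab (hstep i) hs'.1 hs'.2
        have e2 := ih κ (t i) (t (i + 1)) (L * q) hs (htlt i)
          (hr.mono (hta i) (htb i hi)) (by positivity)
        rw [hstep i] at e2
        exact (measure_mono e1).trans e2
    have hcover : MS f κ c n (k + 1) a b L ⊆
        (⋃ i ∈ Finset.range n, (MS f κ c n (k + 1) a b L ∩ Ioo (t i) (t (i + 1)))) ∪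
          t '' (Finset.range n) := by
      intro s hs'
      have hsab := hs'.1
      have hA : 0 ≤ (s - a) / ((b - a) / n) := div_nonneg (by linarith [hsab.1]) hw.le
      have hf1 := Nat.floor_le hA
      have hf2 := Nat.lt_floor_add_one ((s - a) / ((b - a) / n))
      set i := ⌊(s - a) / ((b - a) / n)⌋₊ with hi
      rw [le_div_iff₀ hw] at hf1
      rw [div_lt_iff₀ hw] at hf2
      have g1 : t i ≤ s := by
        have e5 : t i = a + i * ((b - a) / n) := rfl
        linarith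
      have g2 : s < t (i + 1) := by
        have e5 : t (i + 1) = a + ((i + 1 : ℕ) : ℝ) * ((b - a) / n) := rfl
        push_cast at e5
        linarith
      have g3 : i < n := by
        by_contra hcon
        push Not at hcon
        have e6 : b ≤ t i := by
          rw [← htn]
          simp only [ht]
          have : (n : ℝ) ≤ i := by exact_mod_cast hcon
          have := mul_le_mul_of_nonneg_right this hw.le
          linarith
        linarith [hsab.2]
      rcases g1.eq_or_lt with g4 | g4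
      · right
        exact ⟨i, by simpa using g3, g4⟩
      · left
        simp only [mem_iUnion]
        exact ⟨i, by simpa using g3, hs', g4, g2⟩
    have hfin : volume (t '' (Finset.range n)) = 0 :=
      ((Finset.range n).finite_toSet.image t).measure_zero _
    calc volume (MS f κ c n (k + 1) a b L)
        ≤ volume ((⋃ i ∈ Finset.range n, (MS f κ c n (k + 1) a b L ∩ Ioo (t i) (t (i + 1)))) ∪
          t '' (Finset.range n)) := measure_mono hcover
      _ ≤ volume (⋃ i ∈ Finset.range n, (MS f κ c n (k + 1) a b L ∩ Ioo (t i) (t (i + 1)))) +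
          volume (t '' (Finset.range n)) := measure_union_le _ _
      _ = volume (⋃ i ∈ Finset.range n, (MS f κ c n (k + 1) a b L ∩ Ioo (t i) (t (i + 1)))) := by
        rw [hfin, add_zero]
      _ ≤ ∑ i ∈ Finset.range n, volume (MS f κ c n (k + 1) a b L ∩ Ioo (t i) (t (i + 1))) :=
        measure_biUnion_finset_le _ _
      _ ≤ ∑ i ∈ Finset.range n, ENNReal.ofReal (B + if i = i₀ then -(B / 2) else 0) :=
        Finset.sum_le_sum hcell
      _ = ENNReal.ofReal (∑ i ∈ Finset.range n, (B + if i = i₀ then -(B / 2) else 0)) := by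
        rw [ENNReal.ofReal_sum_of_nonneg]
        intro i _
        split_ifs <;> linarith
      _ = ENNReal.ofReal (C * L ^ 2 * (b - a)) := by
        congr 1
        rw [Finset.sum_add_distrib, Finset.sum_const, Finset.sum_ite_eq', if_pos
          (Finset.mem_range.2 hi₀), Finset.card_range, nsmul_eq_mul]
        have e1 : (n : ℝ) * B + -(B / 2) = C * L ^ 2 * (b - a) * (q ^ 2 * (2 * n - 1) / (2 * n)) := by
          simp only [hB]
          field_simp
          ring
        rw [e1, hq]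
        field_simp

theorem measStmt : MeasStmt := by
  intro M e δ hδ hδ1 hS
  obtain ⟨n, hn⟩ := exists_nat_gt (2 / δ)
  have hn1 : 2 < δ * n := by
    rw [div_lt_iff₀ hδ] at hn
    linarith
  have hn2 : 2 ≤ n := by
    have : (2 : ℝ) < n := by nlinarith [Nat.cast_nonneg (α := ℝ) n]
    exact_mod_cast this.le
  have hn2' : (2 : ℝ) ≤ n := by exact_mod_cast hn2
  have hn0 : (0 : ℝ) < n := by linarith
  have hy : 1 < 2 * (n : ℝ) / (2 * n - 1) := by
    rw [lt_div_iff₀ (by linarith)]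
    linarith
  have hy1 : 1 < Real.sqrt (2 * (n : ℝ) / (2 * n - 1)) := by
    rw [Real.lt_sqrt (by norm_num)]
    simpa using hy
  set c : ℝ := Real.logb n (Real.sqrt (2 * (n : ℝ) / (2 * n - 1))) with hc
  have hc0 : 0 < c := Real.logb_pos (by linarith) hy1
  have hq : ((n : ℝ) ^ c) ^ 2 * (2 * n - 1) = 2 * n := by
    rw [hc, Real.rpow_logb hn0 (by linarith) (by linarith), Real.sq_sqrt (by linarith)]
    have : (2 * (n : ℝ) - 1) ≠ 0 := by linarith
    field_simp
  have hθ : 0 < ((δ / 2) ^ c) ^ 2 := by positivity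
  have hC : (((δ / 2) ^ c) ^ 2)⁻¹ * ((δ / 2) ^ c) ^ 2 = 1 := inv_mul_cancel₀ hθ.ne'
  set C : ℝ := (((δ / 2) ^ c) ^ 2)⁻¹ with hCd
  refine ⟨c, hc0, fun f κ a b hs hab hr => ?_⟩
  have hh : 0 < b - a := by linarith
  have hhc : 0 < (b - a) ^ c := Real.rpow_pos_of_pos hh c
  rw [ae_iff]
  set Bad : Set ℝ := {t | ¬ (t ∈ Ioo a b →
    ¬ ∀ C > (0 : ℝ), ∃ r > (0 : ℝ), Cov (κ ∩ f ⁻¹' {t}) c r C)} with hBad
  have key : ∀ L : ℝ, 0 < L → volume Bad ≤ ENNReal.ofReal (C * L ^ 2 * (b - a)) := by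
    intro L hL
    have hsub : Bad ⊆ ⋃ k, MS f κ c n k a b L := by
      intro t ht
      simp only [hBad, mem_ofPred_eq, Classical.not_imp, not_not] at ht
      obtain ⟨ht, hcov⟩ := ht
      obtain ⟨r, hr0, hrc⟩ := hcov (L * (b - a) ^ c) (by positivity)
      have hlim : Tendsto (fun k : ℕ => (b - a) / (n : ℝ) ^ k) atTop (𝓝 0) :=
        (tendsto_pow_atTop_atTop_of_one_lt (by linarith)).const_div_atTop (b - a)
      obtain ⟨k, hk⟩ := (hlim.eventually (gt_mem_nhds hr0)).exists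
      exact mem_iUnion.2 ⟨k, ht, hrc.mono hk.le⟩
    have hmono : Monotone fun k => MS f κ c n k a b L := by
      intro k l hkl t ht
      refine ⟨ht.1, ht.2.mono ?_⟩
      exact div_le_div_of_nonneg_left hh.le (by positivity)
        (pow_le_pow_right₀ (by linarith) hkl)
    calc volume Bad ≤ volume (⋃ k, MS f κ c n k a b L) := measure_mono hsub
      _ = ⨆ k, volume (MS f κ c n k a b L) := hmono.measure_iUnion
      _ ≤ _ := iSup_le fun k => ms_bound hδ hδ1 hS hn2 hn1.le hc0 hq hC f k κ a b L hs hab hr hL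
  have hlim : Tendsto (fun k : ℕ => ENNReal.ofReal (C * (1 / ((k : ℝ) + 1)) ^ 2 * (b - a))) atTop
      (𝓝 0) := by
    rw [← ENNReal.ofReal_zero]
    apply ENNReal.tendsto_ofReal
    have h1 := (((tendsto_one_div_add_atTop_nhds_zero_nat (𝕜 := ℝ)).pow 2).const_mul C).mul_const
      (b - a)
    simpa using h1
  have := ge_of_tendsto' hlim fun k => key (1 / ((k : ℝ) + 1)) (by positivity)
  exact le_antisymm this bot_le

end Pool.Agent.H81.PS
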