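import Pool.Agent.H82.WC.Nonstr

/-!
Continua in `K` are uniformly non-straight when `Z` is empty (problem MP_90715c_gt): a version
with a constant which does not depend on the position of the continuum.
-/

open Matrix Set Filter Topology

namespace Pool.Agent.H90.WC

variable {Γ : Subgroup G} {K : Set (OnePoint ℂ)}

theorem nonstraight_unif (h : Hyp Γ K) (hZ : Z Γ K = ∅) :
    ∃ e > (0 : ℝ), ∀ κ : Set ℂ, IsCompact κ → IsPreconnected κ →
      (∀ z ∈ κ, (z : OnePoint ℂ) ∈ K) → ∀ x ∈ κ, ∀ y ∈ κ, x ≠ y → dist x y ≤ 1 →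
        ∃ z ∈ κ, (1 + e) * dist x y ≤ dist x z + dist z y := by
  by_contra hcon
  push Not at hcon
  obtain ⟨C, hC, hcoc⟩ := h.coc
  set η : ℕ → ℝ := fun n => 1 / ((n : ℝ) + 1) with hη
  have hη0 : ∀ n, 0 < η n := fun n => by rw [hη]; positivity
  have hη1 : ∀ n, η n ≤ 1 := fun n => by
    rw [hη]
    simp only
    rw [div_le_one (by positivity)]
    have : (0 : ℝ) ≤ n := Nat.cast_nonneg n
    linarith
  have hηlim : Tendsto η atTop (𝓝 0) := tendsto_one_div_add_atTop_nhds_zero_nat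
  choose κ hκc hκp hκK x hx y hy hxy hd hz using fun n => hcon (η n ^ 4) (pow_pos (hη0 n) 4)
  have hsq : ∀ n, ∃ a : ℂ, a ≠ 0 ∧ a ^ 2 = η n * (y n - x n) := by
    intro n
    obtain ⟨a, ha⟩ := IsAlgClosed.exists_pow_nat_eq ((η n : ℂ) * (y n - x n)) two_pos
    refine ⟨a, ?_, ha⟩
    rintro rfl
    have h1 : (η n : ℂ) * (y n - x n) ≠ 0 :=
      mul_ne_zero (by exact_mod_cast (hη0 n).ne') (sub_ne_zero.2 (hxy n).symm)
    apply h1
    rw [← ha]
    simp
  choose a ha0 ha using hsq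
  set M : ℕ → G := fun n => aff (a n) ((x n + y n) / 2) (ha0 n) with hM
  choose γ hγ hγC using fun n => hcoc (M n)
  -- the lower right entries tend to infinity
  have hasq : Tendsto (fun n => ‖a n‖ ^ 2) atTop (𝓝 0) := by
    refine squeeze_zero (fun n => by positivity) (fun n => ?_) hηlim
    rw [← norm_pow, ha n, norm_mul, Complex.norm_real, Real.norm_of_nonneg (hη0 n).le]
    have h1 : ‖y n - x n‖ ≤ 1 := by
      rw [← dist_eq_norm, dist_comm]
      exact hd n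
    calc η n * ‖y n - x n‖ ≤ η n * 1 := mul_le_mul_of_nonneg_left h1 (hη0 n).le
      _ = η n := mul_one _
  have hanorm : Tendsto (fun n => ‖a n‖) atTop (𝓝 0) := by
    have h1 := (Real.continuous_sqrt.tendsto 0).comp hasq
    rw [Real.sqrt_zero] at h1
    refine h1.congr fun n => ?_
    exact Real.sqrt_sq (norm_nonneg _)
  have hinf : Tendsto (fun n => ‖M n 1 1‖) atTop atTop := by
    have h1 : Tendsto (fun n => ‖a n‖) atTop (𝓝[>] 0) :=
      tendsto_nhdsWithin_iff.2 ⟨hanorm, Eventually.of_forall fun n => norm_pos_iff.2 (ha0 n)⟩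
    refine h1.inv_tendsto_nhdsGT_zero.congr fun n => ?_
    rw [hM]
    simp only
    rw [aff_11, norm_inv]
    rfl
  -- a limit along an ultrafilter
  obtain ⟨q, hqC, hq⟩ := hC.ultrafilter_le_nhds
    ((Ultrafilter.of (atTop : Filter ℕ)).map (fun n => γ n * M n))
    (by
      rw [le_principal_iff]
      exact Eventually.of_forall (f := ((Ultrafilter.of (atTop : Filter ℕ) : Ultrafilter ℕ) :
        Filter ℕ)) hγC)
  set 𝒰 : Ultrafilter ℕ := Ultrafilter.of (atTop : Filter ℕ) with h𝒰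
  have h𝒰le : (𝒰 : Filter ℕ) ≤ atTop := Ultrafilter.of_le _
  have hq' : Tendsto (fun n => γ n * M n) 𝒰 (𝓝 q) := hq
  have hinf' : Tendsto (fun n => ‖M n 1 1‖) 𝒰 atTop := hinf.mono_left h𝒰le
  have hγne : ∀ g : G, ∀ᶠ n in (𝒰 : Filter ℕ), γ n ≠ g := by
    intro g
    by_contra hne
    have h1 : ∃ᶠ n in (𝒰 : Filter ℕ), γ n = g := by
      intro hh
      exact hne hh
    have h2 : ∀ᶠ n in (𝒰 : Filter ℕ), γ n = g := Ultrafilter.frequently_iff_eventually.1 h1
    have h3 : Tendsto (fun n => g⁻¹ * (γ n * M n)) 𝒰 (𝓝 (g⁻¹ * q)) :=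
      ((continuous_const.mul continuous_id).tendsto q).comp hq'
    have h4 : Tendsto M 𝒰 (𝓝 (g⁻¹ * q)) := by
      refine h3.congr' ?_
      filter_upwards [h2] with n hn
      rw [hn, inv_mul_cancel_left]
    have h5 : Tendsto (fun n => ‖M n 1 1‖) 𝒰 (𝓝 ‖(g⁻¹ * q) 1 1‖) :=
      ((continuous_entry 1 1).norm.tendsto _).comp h4
    exact not_tendsto_nhds_of_tendsto_atTop hinf' _ h5
  have hqZ : q ∈ Z Γ K := by
    apply Z_of_approx
    intro T hT ε hε F hF U hU
    have e1 : ∀ᶠ n in (𝒰 : Filter ℕ), ∀ g ∈ F, γ n ≠ g :=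
      (eventually_all_finite hF).2 fun g _ => hγne g
    have e2 : ∀ᶠ n in (𝒰 : Filter ℕ), q⁻¹ * (γ n * M n) ∈ U := by
      have h3 : Tendsto (fun n => q⁻¹ * (γ n * M n)) 𝒰 (𝓝 (q⁻¹ * q)) :=
        ((continuous_const.mul continuous_id).tendsto q).comp hq'
      rw [inv_mul_cancel] at h3
      exact h3 hU
    have e3 : ∀ᶠ n in (𝒰 : Filter ℕ), η n < min ε (1 / (2 * T)) :=
      h𝒰le (hηlim.eventually_lt_const (lt_min hε (by positivity)))
    obtain ⟨n, ⟨hn1, hn2⟩, hn3⟩ := ((e1.and e2).and e3).exists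
    have hn4 : η n ≤ ε := (hn3.trans_le (min_le_left _ _)).le
    have hn5 : T ≤ 1 / (2 * η n) := by
      have h6 : η n ≤ 1 / (2 * T) := (hn3.trans_le (min_le_right _ _)).le
      rw [le_div_iff₀ (by positivity)] at h6
      rw [le_div_iff₀ (mul_pos two_pos (hη0 n))]
      linarith
    obtain ⟨κ', hκ', hκ'K⟩ := crossing_of_straight (hκc n) (hκp n) (hx n) (hy n) (hxy n) (hη0 n)
      (hη1 n) (fun z hzκ => (hz n z hzκ).le) hT hn5 hn4
    refine ⟨γ n, hγ n, fun hF' => hn1 _ hF' rfl, q⁻¹ * (γ n * M n), hn2, κ', hκ', ?_⟩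
    intro w hw
    have h7 : (γ n)⁻¹ * (q * (q⁻¹ * (γ n * M n))) = M n := by group
    rw [h7, hM]
    simp only
    rw [act_aff, ha n]
    exact hκK n _ (hκ'K w hw)
  rw [hZ] at hqZ
  exact hqZ

end Pool.Agent.H90.WC
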