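import Pool.Agent.H81.PS.Stm2

/-!
Diameter is controlled by the oscillation (problem MP_90715c_gt), row PS-Wid.
-/

open Set Filter Topology MeasureTheory

namespace Pool.Agent.H81.PS

/-- The gradient of a real linear form on the complex plane. -/
noncomputable def grad (f' : ℂ →L[ℝ] ℝ) : ℂ := ⟨f' 1, f' Complex.I⟩

theorem grad_re (f' : ℂ →L[ℝ] ℝ) (v : ℂ) :
    f' v = (v * (starRingEnd ℂ) (grad f')).re := by
  have h : v = v.re • (1 : ℂ) + v.im • Complex.I := by
    apply Complex.ext <;> simp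
  have h2 : f' v = v.re * f' 1 + v.im * f' Complex.I := by
    conv_lhs => rw [h]
    rw [map_add, map_smul, map_smul]
    simp
  rw [h2]
  simp [grad, Complex.mul_re]

theorem grad_pos (f' : ℂ →L[ℝ] ℝ) (h : f' ≠ 0) : 0 < ‖grad f'‖ := by
  rw [norm_pos_iff]
  intro h0
  apply h
  ext v
  rw [grad_re, h0]
  simp

theorem widStmt2 : WidStmt2 := by
  intro e he
  set ε : ℝ := min (e / 8) (1 / 4) with hε
  have hε0 : 0 < ε := by
    rw [hε]; exact lt_min (by linarith) (by norm_num)
  have hε1 : ε ≤ 1 / 4 := min_le_right _ _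
  have hε2 : ε ≤ e / 8 := min_le_left _ _
  refine ⟨2 / ε, ?_, ?_⟩
  · rw [le_div_iff₀ hε0]; linarith
  intro A hA f f' p hf hf'
  set n : ℝ := ‖grad f'‖ with hn
  have hn0 : 0 < n := grad_pos f' hf'
  have hc : (0 : NNReal) < ⟨ε * n, (mul_pos hε0 hn0).le⟩ :=
    NNReal.coe_pos.1 (mul_pos hε0 hn0)
  obtain ⟨s, hs, hap⟩ := hf.approximates_deriv_on_nhds (Or.inr hc)
  obtain ⟨ρ, hρ, hρs⟩ := Metric.nhds_basis_closedBall.mem_iff.1 hs
  have happ : ∀ z ∈ Metric.closedBall p ρ, ∀ w ∈ Metric.closedBall p ρ,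
      |f z - f w - f' (z - w)| ≤ ε * n * dist z w := by
    intro z hz w hw
    have h := hap z (hρs hz) w (hρs hw)
    rw [Real.norm_eq_abs] at h
    rw [dist_eq_norm]
    exact h
  have hre : ∀ z w : ℂ, |f' (z - w)| ≤ n * dist z w := by
    intro z w
    rw [grad_re]
    refine (Complex.abs_re_le_norm _).trans ?_
    rw [norm_mul, RCLike.norm_conj, dist_eq_norm, mul_comm]
  refine ⟨ρ, hρ, 2 * n, by positivity, ?_, ?_⟩
  · intro z hz w hw
    have h1 := happ z hz w hw
    have h2 := hre z w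
    have h3 : |f z - f w| ≤ |f z - f w - f' (z - w)| + |f' (z - w)| := by
      have := abs_add_le (f z - f w - f' (z - w)) (f' (z - w))
      simpa using this
    have h4 : 0 ≤ dist z w := dist_nonneg
    nlinarith [mul_nonneg hn0.le h4]
  · intro κ hκ x hx y hy
    by_contra hcon
    push Not at hcon
    obtain ⟨q, hq, hmax⟩ := (hκ.cpt.prod hκ.cpt).exists_isMaxOn ⟨(x, y), hx, hy⟩
      (f := fun q : ℂ × ℂ => dist q.1 q.2) (by fun_prop)
    obtain ⟨x1, y1⟩ := q
    obtain ⟨hx1, hy1⟩ := hq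
    simp only at hx1 hy1
    have hd : ∀ z ∈ κ, ∀ w ∈ κ, dist z w ≤ dist x1 y1 := by
      intro z hz w hw
      exact hmax (show (z, w) ∈ κ ×ˢ κ from ⟨hz, hw⟩)
    set d : ℝ := dist x1 y1 with hdd
    have hosc : ∀ z ∈ κ, ∀ w ∈ κ, f z - f w ≤ ε * n * d := by
      intro z hz w hw
      have h1 := hcon z hz w hw
      have h2 := hd x hx y hy
      have h3 : 2 / ε / (2 * n) * (f z - f w) = (f z - f w) / (ε * n) := by
        field_simp
      rw [h3] at h1
      have h4 : (f z - f w) / (ε * n) ≤ d := (h1.le).trans h2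
      rw [div_le_iff₀ (mul_pos hε0 hn0)] at h4
      linarith
    have hd0 : 0 < d := by
      have h1 := hcon x hx x hx
      rw [sub_self, mul_zero] at h1
      exact h1.trans_le (hd x hx y hy)
    have hne : x1 ≠ y1 := by
      rw [← dist_pos]; exact hd0
    have hball : ∀ z ∈ κ, z ∈ Metric.closedBall p ρ := fun z hz => (hκ.sub hz).2
    set S : ℂ → ℝ := fun z => (z * (starRingEnd ℂ) (grad f')).im with hS
    have hup : ∀ z ∈ κ, ∀ w ∈ κ, n * dist z w ≤ 2 * ε * n * d + |S z - S w| := by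
      intro z hz w hw
      have h1 : n * dist z w = ‖(z - w) * (starRingEnd ℂ) (grad f')‖ := by
        rw [norm_mul, RCLike.norm_conj, dist_eq_norm, mul_comm]
      have h2 := Complex.norm_le_abs_re_add_abs_im ((z - w) * (starRingEnd ℂ) (grad f'))
      have h3 : ((z - w) * (starRingEnd ℂ) (grad f')).im = S z - S w := by
        rw [hS, sub_mul, Complex.sub_im]
      have h4 : |((z - w) * (starRingEnd ℂ) (grad f')).re| ≤ 2 * ε * n * d := by
        rw [← grad_re]
        have h5 := happ z (hball z hz) w (hball w hw)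
        have h6 : |f z - f w| ≤ ε * n * d := by
          rw [abs_le]
          have := hosc z hz w hw
          have := hosc w hw z hz
          constructor <;> linarith
        have h7 : |f' (z - w)| ≤ |f z - f w| + |f z - f w - f' (z - w)| := by
          have := abs_sub (f z - f w) (f z - f w - f' (z - w))
          simpa using this
        have h8 : ε * n * dist z w ≤ ε * n * d :=
          mul_le_mul_of_nonneg_left (hd z hz w hw) (mul_pos hε0 hn0).le
        linarith
      rw [h3] at h2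
      rw [h1]
      linarith
    have hlow : ∀ z ∈ κ, ∀ w ∈ κ, |S z - S w| ≤ n * d := by
      intro z hz w hw
      have h3 : ((z - w) * (starRingEnd ℂ) (grad f')).im = S z - S w := by
        rw [hS, sub_mul, Complex.sub_im]
      rw [← h3]
      refine (Complex.abs_im_le_norm _).trans ?_
      rw [norm_mul, RCLike.norm_conj, ← dist_eq_norm, mul_comm]
      exact mul_le_mul_of_nonneg_left (hd z hz w hw) hn0.le
    obtain ⟨z, hz, hzz⟩ := hA κ ⟨fun u hu => (hκ.sub hu).1, hκ.cpt, hκ.conn⟩ x1 hx1 y1 hy1 hne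
    have e1 := hup x1 hx1 z hz
    have e2 := hup z hz y1 hy1
    have e3 := hup x1 hx1 y1 hy1
    have l1 := hlow x1 hx1 z hz
    have l2 := hlow z hz y1 hy1
    have l3 := hlow x1 hx1 y1 hy1
    have hsum : |S x1 - S z| + |S z - S y1| ≤ n * d * (1 + 2 * ε) := by
      have m1 : 0 ≤ n * d := (mul_pos hn0 hd0).le
      have m2 : n * d * (1 + 2 * ε) = n * d + 2 * ε * n * d := by ring
      have m3 : 0 ≤ 2 * ε * n * d := by positivity
      rw [m2]
      rcases abs_cases (S x1 - S z) with ⟨a1, a2⟩ | ⟨a1, a2⟩ <;>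
      rcases abs_cases (S z - S y1) with ⟨b1, b2⟩ | ⟨b1, b2⟩ <;>
      rcases abs_cases (S x1 - S y1) with ⟨c1, c2⟩ | ⟨c1, c2⟩ <;>
      rw [a1, b1] <;> rw [a1] at l1 <;> rw [b1] at l2 <;> rw [c1] at l3 e3 <;> linarith
    have hfin : n * ((1 + e) * d) ≤ n * d * (1 + 6 * ε) := by
      have h1 : n * ((1 + e) * d) ≤ n * (dist x1 z + dist z y1) :=
        mul_le_mul_of_nonneg_left hzz hn0.le
      nlinarith [h1, e1, e2, hsum]
    have hnd : 0 < n * d := mul_pos hn0 hd0
    nlinarith [hfin, hnd]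

theorem widStmt : WidStmt := by
  intro A e he hA f f' p hf hf'
  obtain ⟨P, hP, h⟩ := widStmt2 e he
  obtain ⟨ρ, hρ, l, hl, _, hw⟩ := h A hA f f' p hf hf'
  exact ⟨ρ, hρ, P / l, div_pos (by linarith) hl, hw⟩

end Pool.Agent.H81.PS
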