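import Pool.Agent.H81.PS.Slices
import Pool.Agent.H81.PS.WidP
import Pool.Agent.H81.PS.MeasP
import Pool.Agent.H81.PS.Eil
import Pool.Agent.H81.PS.NonstrU
import Pool.Agent.H90.WC.Asm
import Pool.Agent.H13.WC.SubCont

/-!
Almost all slices of wandering continua have positive dimension (problem MP_90715c_gt): assembly.
-/

open Set Filter Topology MeasureTheory Metric

namespace Pool.Agent.H81.PS

/-- Slices without isolated points are perfect. -/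
theorem iso_of_not_perfect {A : Set ℂ} {f : ℂ → ℝ} (hA : IsCompact A) (hf : ContinuousOn f A) :
    {t : ℝ | ¬ Perfect (A ∩ f ⁻¹' {t})} ⊆ IsoLev A f := by
  intro t ht
  by_contra hcon
  apply ht
  refine ⟨hf.preimage_isClosed_of_isClosed hA.isClosed isClosed_singleton, ?_⟩
  intro x hx
  rw [accPt_iff_nhds]
  intro U hU
  obtain ⟨r, hr, hrU⟩ := Metric.mem_nhds_iff.1 hU
  by_contra hno
  apply hcon
  refine ⟨x, hx.1, hx.2, r, hr, fun y hy hfy hyx => ?_⟩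
  by_contra hne
  exact hno ⟨y, ⟨hrU (mem_ball.2 hyx), hy, hfy⟩, hne⟩

/-- The local statement for a part of the continuum. -/
theorem LocAt.restrict {A : Set ℂ} {f : ℂ → ℝ} {p : ℂ} {ρ ρ' c : ℝ}
    (h : LocAt (A ∩ closedBall p ρ') f p ρ c) : LocAt A f p (min ρ ρ') c := by
  have hsub : A ∩ closedBall p (min ρ ρ') ⊆ A ∩ closedBall p ρ' ∩ closedBall p ρ := by
    rintro z ⟨hz, hz'⟩
    rw [mem_closedBall] at hz'
    exact ⟨⟨hz, mem_closedBall.2 (hz'.trans (min_le_right _ _))⟩,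
      mem_closedBall.2 (hz'.trans (min_le_left _ _))⟩
  have hsc : ∀ κ, Sc (A ∩ closedBall p (min ρ ρ')) κ →
      Sc (A ∩ closedBall p ρ' ∩ closedBall p ρ) κ := fun κ hκ =>
    ⟨hκ.sub.trans hsub, hκ.cpt, hκ.conn⟩
  refine ⟨fun κ hκ => h.osc κ (hsc κ hκ),
    h.cont.mono (closedBall_subset_closedBall (min_le_left _ _)),
    fun κ hκ => h.ae κ (hsc κ hκ), fun κ hκ => h.split κ (hsc κ hκ), ?_⟩
  obtain ⟨M, hM, hw⟩ := h.wid
  exact ⟨M, hM, wid_mono hsub hw⟩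

theorem slices {e : ℝ} (he : 0 < e) : ∃ c > (0 : ℝ), ∀ A : Set ℂ,
    (∀ p ∈ A, ∃ ρ > (0 : ℝ), Wiggly (A ∩ closedBall p ρ) e) → IsCompact A →
    IsPreconnected A → A.Nontrivial → ENNReal.ofReal (1 + c) ≤ dimH A ∧
      ∀ f : ℂ → ℝ, (∀ z ∈ A, ∃ f' : ℂ →L[ℝ] ℝ, f' ≠ 0 ∧ HasStrictFDerivAt f f' z) →
        (f '' A).Nontrivial ∧ (∀ᵐ t : ℝ, ∀ x ∈ A, f x = t → ∀ r > (0 : ℝ),
          ENNReal.ofReal c ≤ dimH (A ∩ f ⁻¹' {t} ∩ ball x r)) ∧
            IsMeagre {t : ℝ | ¬ Perfect (A ∩ f ⁻¹' {t})} := by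
  have he' : 0 < min e 1 := lt_min he one_pos
  obtain ⟨c, hc, hloc⟩ := loc_at widStmt2 measStmt he' (min_le_right e 1)
  refine ⟨c / 2, by positivity, fun A hw hA hAc hn => ?_⟩
  have hw' : ∀ p ∈ A, ∃ ρ > (0 : ℝ), Wiggly (A ∩ closedBall p ρ) (min e 1) := by
    intro p hp
    obtain ⟨ρ, hρ, hw⟩ := hw p hp
    refine ⟨ρ, hρ, ?_⟩
    intro κ hκ x hx y hy hxy
    obtain ⟨z, hz, h⟩ := hw κ hκ x hx y hy hxy
    refine ⟨z, hz, le_trans ?_ h⟩
    apply mul_le_mul_of_nonneg_right _ dist_nonneg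
    linarith [min_le_left e 1]
  have hL : ∀ f : ℂ → ℝ, (∀ z ∈ A, ∃ f' : ℂ →L[ℝ] ℝ, f' ≠ 0 ∧ HasStrictFDerivAt f f' z) →
      ∀ p ∈ A, ∃ ρ > (0 : ℝ), LocAt A f p ρ c := by
    intro f hf p hp
    obtain ⟨f', h1, h2⟩ := hf p hp
    obtain ⟨ρ', hρ', hw''⟩ := hw' p hp
    obtain ⟨ρ, hρ, hL⟩ := hloc _ hw'' f f' p h2 h1
    exact ⟨min ρ ρ', lt_min hρ hρ', hL.restrict⟩
  have hcc : ENNReal.ofReal (c / 2) < ENNReal.ofReal c :=
    (ENNReal.ofReal_lt_ofReal_iff hc).2 (by linarith)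
  refine ⟨?_, fun f hf => ⟨nonconst hA hAc hn (hL f hf), ?_, ?_⟩⟩
  · by_contra hlt
    push Not at hlt
    have hre : ∀ z ∈ A, ∃ f' : ℂ →L[ℝ] ℝ, f' ≠ 0 ∧ HasStrictFDerivAt (fun z : ℂ => z.re) f' z := by
      intro z _
      refine ⟨Complex.reCLM, fun h => ?_, Complex.reCLM.hasStrictFDerivAt⟩
      have := congrArg (fun g : ℂ →L[ℝ] ℝ => g 1) h
      simp at this
    have h1 := eil A (fun z => z.re) (c / 2) (by positivity) (fun z _ w _ => by
      rw [← Complex.sub_re, Complex.dist_eq]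
      exact Complex.abs_re_le_norm _) hlt
    have h2 := ae_dim hA hAc hn (hL _ hre)
    have h3 : ∀ᵐ t : ℝ, t ∉ (fun z : ℂ => z.re) '' A := by
      filter_upwards [h1, h2] with t ht1 ht2
      rintro ⟨x, hx, hxt⟩
      have h4 := ht2 x hx hxt 1 one_pos
      have h5 : dimH (A ∩ (fun z : ℂ => z.re) ⁻¹' {t} ∩ ball x 1) ≤
          dimH (A ∩ (fun z : ℂ => z.re) ⁻¹' {t}) := dimH_mono inter_subset_left
      exact absurd (lt_of_lt_of_le hcc (h4.trans (h5.trans ht1))) (lt_irrefl _)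
    obtain ⟨s, hs, t, ht, hst⟩ := nonconst hA hAc hn (hL _ hre)
    have hord : ((fun z : ℂ => z.re) '' A).OrdConnected :=
      (hAc.image _ Complex.continuous_re.continuousOn).ordConnected
    rw [ae_iff] at h3
    have h6 : volume (Icc (min s t) (max s t)) = 0 := by
      refine measure_mono_null ?_ h3
      intro u hu
      simp only [not_not, mem_setOf_eq]
      rcases le_total s t with h | h
      · rw [min_eq_left h, max_eq_right h] at hu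
        exact hord.out hs ht hu
      · rw [min_eq_right h, max_eq_left h] at hu
        exact hord.out ht hs hu
    rw [Real.volume_Icc, ENNReal.ofReal_eq_zero] at h6
    rcases lt_or_gt_of_ne hst with h | h
    · rw [max_eq_right h.le, min_eq_left h.le] at h6
      linarith
    · rw [max_eq_left h.le, min_eq_right h.le] at h6
      linarith
  · filter_upwards [ae_dim hA hAc hn (hL f hf)] with t ht x hx hxt r hr
    exact hcc.le.trans (ht x hx hxt r hr)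
  · have hcont : ContinuousOn f A := by
      intro z hz
      obtain ⟨f', -, h⟩ := hf z hz
      exact h.continuousAt.continuousWithinAt
    exact (meagre_iso hA hAc hn (hL f hf) hcont).mono (iso_of_not_perfect hA hcont)

theorem fin {Γ : Subgroup Pool.Agent.H90.WC.G} {K : Set (OnePoint ℂ)}
    (h : Pool.Agent.H90.WC.Hyp Γ K) : ∃ c > (0 : ℝ),
      (K.Nontrivial → ENNReal.ofReal (1 + c) ≤ dimH ((fun z : ℂ => (z : OnePoint ℂ)) ⁻¹' K)) ∧
      ∀ A : Set ℂ, IsCompact A → IsPreconnected A → A.Nontrivial →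
        (∀ z ∈ A, (z : OnePoint ℂ) ∈ K) → ENNReal.ofReal (1 + c) ≤ dimH A ∧
          ∀ f : ℂ → ℝ, (∀ z ∈ A, ∃ f' : ℂ →L[ℝ] ℝ, f' ≠ 0 ∧ HasStrictFDerivAt f f' z) →
            (f '' A).Nontrivial ∧ (∀ᵐ t : ℝ, ∀ x ∈ A, f x = t → ∀ r > (0 : ℝ),
              ENNReal.ofReal c ≤ dimH (A ∩ f ⁻¹' {t} ∩ ball x r)) ∧
                IsMeagre {t : ℝ | ¬ Perfect (A ∩ f ⁻¹' {t})} := by
  obtain ⟨e, he, hns⟩ := Pool.Agent.H90.WC.nonstraight_unif h (Pool.Agent.H90.WC.Z_empty h)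
  obtain ⟨c, hc, hs⟩ := slices he
  have key : ∀ A : Set ℂ, IsCompact A → IsPreconnected A → A.Nontrivial →
      (∀ z ∈ A, (z : OnePoint ℂ) ∈ K) → ENNReal.ofReal (1 + c) ≤ dimH A ∧
        ∀ f : ℂ → ℝ, (∀ z ∈ A, ∃ f' : ℂ →L[ℝ] ℝ, f' ≠ 0 ∧ HasStrictFDerivAt f f' z) →
          (f '' A).Nontrivial ∧ (∀ᵐ t : ℝ, ∀ x ∈ A, f x = t → ∀ r > (0 : ℝ),
            ENNReal.ofReal c ≤ dimH (A ∩ f ⁻¹' {t} ∩ ball x r)) ∧
              IsMeagre {t : ℝ | ¬ Perfect (A ∩ f ⁻¹' {t})} := by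
    intro A hA hAc hn hAK
    refine hs A (fun p _ => ⟨1 / 2, by norm_num, fun κ hκ x hx y hy hxy => ?_⟩) hA hAc hn
    refine hns κ hκ.cpt hκ.conn (fun z hz => hAK z (hκ.sub hz).1) x hx y hy hxy ?_
    have h1 := mem_closedBall.1 (hκ.sub hx).2
    have h2 := mem_closedBall.1 (hκ.sub hy).2
    have h3 := dist_triangle_right x y p
    linarith
  refine ⟨c, hc, fun hn => ?_, key⟩
  obtain ⟨A, hA, hAc, hAn, hAK⟩ :=
    Pool.Agent.H90.WC.exists_subcontinuum h.cpt h.conn hn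
  exact (key A hA hAc hAn hAK).1.trans (dimH_mono fun z hz => hAK z hz)

end Pool.Agent.H81.PS
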