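import Mathlib

/-!
Almost all slices of wandering continua have positive dimension (problem MP_90715c_gt): the
iteration of slopes.
-/

open Set

namespace Pool.Agent.H81.PS

/-- One step: a subinterval with a larger slope. -/
lemma iter_step {M e : ℝ} (hM : 1 ≤ M) (he : 0 < e) (he1 : e ≤ 1) {D : ℝ → ℝ → ℝ}
    {a b E : ℝ} (hE : 0 ≤ E)
    (h1 : ∀ s ∈ Icc a b, ∀ s' ∈ Icc a b, s ≤ s' → D s s' ≤ M * (s' - s) + 2 * E)
    (h2 : ∀ s ∈ Icc a b, ∀ s' ∈ Icc a b, s < s' → ∃ t ∈ Icc s s',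
      (1 + e) * D s s' - 8 * E ≤ D s t + D t s')
    {s s' : ℝ} (hs : s ∈ Icc a b) (hs' : s' ∈ Icc a b) (hss : s < s')
    (hEL : 80 * E ≤ e * (s' - s)) {ρ : ℝ} (hρ : 1 / 2 ≤ ρ) (hD : ρ * (s' - s) ≤ D s s') :
    ∃ u ∈ Icc a b, ∃ v ∈ Icc a b, e / (8 * M) * (s' - s) ≤ v - u ∧
      (1 + e / 2) * ρ * (v - u) ≤ D u v := by
  obtain ⟨t, ht, ht'⟩ := h2 s hs s' hs' hss
  have hta : t ∈ Icc a b := ⟨hs.1.trans ht.1, ht.2.trans hs'.2⟩
  set g : ℝ := e / (8 * M) with hg
  have hMp : (0 : ℝ) < M := by linarith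
  have hgp : 0 < g := by positivity
  have hgM : g * M = e / 8 := by
    rw [hg]
    field_simp
  have hg1 : g ≤ 1 / 8 := by
    have : g ≤ g * M := by nlinarith
    rw [hgM] at this
    linarith
  set L : ℝ := s' - s with hL
  have hLp : 0 < L := by linarith
  have hDL : L / 2 ≤ D s s' := by nlinarith
  have hρp : 0 < ρ := by linarith
  have heD : e * (L / 2) ≤ e * D s s' := mul_le_mul_of_nonneg_left hDL he.le
  by_cases c1 : t - s < g * L
  · -- the first piece is short
    refine ⟨t, hta, s', hs', by nlinarith, ?_⟩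
    have d1 := h1 s hs t hta ht.1
    have d2 : M * (t - s) ≤ M * (g * L) := mul_le_mul_of_nonneg_left c1.le hMp.le
    have d3 : M * (g * L) = e / 8 * L := by
      rw [← hgM]
      ring
    have d4 : (1 + e / 2) * D s s' ≤ D t s' := by linarith
    have d5 : (1 + e / 2) * (ρ * (s' - t)) ≤ (1 + e / 2) * D s s' := by
      apply mul_le_mul_of_nonneg_left _ (by linarith)
      refine le_trans ?_ hD
      apply mul_le_mul_of_nonneg_left _ hρp.le
      linarith [ht.1]
    calc (1 + e / 2) * ρ * (s' - t) = (1 + e / 2) * (ρ * (s' - t)) := by ring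
      _ ≤ (1 + e / 2) * D s s' := d5
      _ ≤ D t s' := d4
  · by_cases c2 : s' - t < g * L
    · refine ⟨s, hs, t, hta, by nlinarith, ?_⟩
      have d1 := h1 t hta s' hs' ht.2
      have d2 : M * (s' - t) ≤ M * (g * L) := mul_le_mul_of_nonneg_left c2.le hMp.le
      have d3 : M * (g * L) = e / 8 * L := by
        rw [← hgM]
        ring
      have d4 : (1 + e / 2) * D s s' ≤ D s t := by linarith
      have d5 : (1 + e / 2) * (ρ * (t - s)) ≤ (1 + e / 2) * D s s' := by
        apply mul_le_mul_of_nonneg_left _ (by linarith)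
        refine le_trans ?_ hD
        apply mul_le_mul_of_nonneg_left _ hρp.le
        linarith [ht.2]
      calc (1 + e / 2) * ρ * (t - s) = (1 + e / 2) * (ρ * (t - s)) := by ring
        _ ≤ (1 + e / 2) * D s s' := d5
        _ ≤ D s t := d4
    · push Not at c1 c2
      by_cases c3 : (1 + e / 2) * ρ * (t - s) ≤ D s t
      · exact ⟨s, hs, t, hta, c1, c3⟩
      · refine ⟨t, hta, s', hs', c2, ?_⟩
        push Not at c3
        have d1 : (1 + e / 2) * D s s' ≤ D s t + D t s' := by linarith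
        have d2 : (1 + e / 2) * (ρ * L) ≤ (1 + e / 2) * D s s' :=
          mul_le_mul_of_nonneg_left hD (by linarith)
        have d3 : (1 + e / 2) * (ρ * L) = (1 + e / 2) * ρ * (t - s) +
            (1 + e / 2) * ρ * (s' - t) := by
          rw [hL]
          ring
        linarith

theorem iter (M e : ℝ) (hM : 1 ≤ M) (he : 0 < e) (he1 : e ≤ 1) : ∃ θ > (0 : ℝ),
    ∀ (D : ℝ → ℝ → ℝ) (a b E : ℝ), a < b → 0 ≤ E → E ≤ θ * (b - a) →
      (∀ s ∈ Icc a b, ∀ s' ∈ Icc a b, s ≤ s' → D s s' ≤ M * (s' - s) + 2 * E) →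
      (∀ s ∈ Icc a b, ∀ s' ∈ Icc a b, s < s' → ∃ t ∈ Icc s s',
        (1 + e) * D s s' - 8 * E ≤ D s t + D t s') →
      (b - a) / 2 ≤ D a b → False := by
  obtain ⟨m, hm⟩ := pow_unbounded_of_one_lt (2 * (M + 1)) (show (1 : ℝ) < 1 + e / 2 by linarith)
  have hMp : (0 : ℝ) < M := by linarith
  set g : ℝ := e / (8 * M) with hg
  have hgp : 0 < g := by positivity
  have hg1 : g ≤ 1 := by
    rw [hg, div_le_one (by positivity)]
    linarith
  refine ⟨e * g ^ m / 80, by positivity, ?_⟩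
  intro D a b E hab hE hEθ h1 h2 h3
  have hba : 0 < b - a := by linarith
  have key : ∀ j : ℕ, j ≤ m → ∃ s ∈ Icc a b, ∃ s' ∈ Icc a b, g ^ j * (b - a) ≤ s' - s ∧
      1 / 2 * (1 + e / 2) ^ j * (s' - s) ≤ D s s' := by
    intro j
    induction j with
    | zero =>
      intro _
      refine ⟨a, ⟨le_rfl, hab.le⟩, b, ⟨hab.le, le_rfl⟩, by simp, ?_⟩
      rw [pow_zero]
      linarith
    | succ j ih =>
      intro hj
      obtain ⟨s, hs, s', hs', i1, i2⟩ := ih (by omega)
      have hgj : g ^ m ≤ g ^ j := pow_le_pow_of_le_one hgp.le hg1 (by omega)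
      have hgj0 : 0 < g ^ j := pow_pos hgp j
      have hss : s < s' := by nlinarith
      have hEL : 80 * E ≤ e * (s' - s) := by
        have e1 : g ^ m * (b - a) ≤ g ^ j * (b - a) := mul_le_mul_of_nonneg_right hgj hba.le
        have e2 : e * (g ^ m * (b - a)) ≤ e * (s' - s) :=
          mul_le_mul_of_nonneg_left (e1.trans i1) he.le
        have e3 : 80 * (e * g ^ m / 80 * (b - a)) = e * (g ^ m * (b - a)) := by ring
        linarith
      have hpow : (1 : ℝ) ≤ (1 + e / 2) ^ j := one_le_pow₀ (by linarith)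
      obtain ⟨u, hu, v, hv, k1, k2⟩ := iter_step hM he he1 hE h1 h2 hs hs' hss hEL
        (ρ := 1 / 2 * (1 + e / 2) ^ j) (by linarith) i2
      refine ⟨u, hu, v, hv, ?_, ?_⟩
      · rw [pow_succ']
        calc g * g ^ j * (b - a) = g * (g ^ j * (b - a)) := by ring
          _ ≤ g * (s' - s) := mul_le_mul_of_nonneg_left i1 hgp.le
          _ ≤ v - u := k1
      · calc 1 / 2 * (1 + e / 2) ^ (j + 1) * (v - u)
            = (1 + e / 2) * (1 / 2 * (1 + e / 2) ^ j) * (v - u) := by
              rw [pow_succ']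
              ring
          _ ≤ D u v := k2
  obtain ⟨s, hs, s', hs', i1, i2⟩ := key m le_rfl
  have hgm : 0 < g ^ m := pow_pos hgp m
  have hss : 0 < s' - s := lt_of_lt_of_le (by positivity) i1
  have d1 := h1 s hs s' hs' (by linarith)
  have d2 : 80 * E ≤ e * (s' - s) := by
    have e2 : e * (g ^ m * (b - a)) ≤ e * (s' - s) := mul_le_mul_of_nonneg_left i1 he.le
    have e3 : 80 * (e * g ^ m / 80 * (b - a)) = e * (g ^ m * (b - a)) := by ring
    linarith
  have d3 : e * (s' - s) ≤ s' - s := by nlinarith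
  have d4 : (M + 1) * (s' - s) < 1 / 2 * (1 + e / 2) ^ m * (s' - s) := by
    apply mul_lt_mul_of_pos_right _ hss
    linarith
  linarith

end Pool.Agent.H81.PS
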