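import Pool.Agent.H81.PS.SplitP
import Pool.Agent.H81.PS.BaireP
import Pool.Agent.H81.PS.CovDim

/-!
Almost all slices of wandering continua have positive dimension (problem MP_90715c_gt): local
statements and assembly for nonstraight continua.
-/

open Set Filter Topology MeasureTheory Metric

namespace Pool.Agent.H81.PS

/-- Small continua through a point. -/
lemma loc_cont {A : Set ℂ} (hA : IsCompact A) (hAc : IsPreconnected A) (hn : A.Nontrivial)
    {x : ℂ} (hx : x ∈ A) {ρ : ℝ} (hρ : 0 < ρ) :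
    ∃ κ, Sc A κ ∧ x ∈ κ ∧ (∀ z ∈ κ, dist z x ≤ ρ) ∧ κ.Nontrivial := by
  obtain ⟨y, hy, hyx⟩ := hn.exists_ne x
  have hr : 0 < min ρ (dist x y) := lt_min hρ (dist_pos.2 hyx.symm)
  obtain ⟨κ, h1, h2, h3, h4, h5, w, hw, hw'⟩ :=
    Pool.Agent.H90.WC.bump hA hAc hx hr ⟨y, hy, min_le_right _ _⟩
  refine ⟨κ, ⟨h1, h2, h3⟩, h4, fun z hz => ?_, x, h4, w, hw, fun h => ?_⟩
  · rw [dist_comm]
    exact (h5 z hz).trans (min_le_left _ _)
  · rw [← h, dist_self] at hw'
    linarith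

/-- A set of reals which is null on one side of each of its points is null. -/
lemma null_of_side {T : Set ℝ}
    (h : ∀ t ∈ T, ∃ s, s ≠ t ∧ volume (T ∩ Ioo (min t s) (max t s)) = 0) : volume T = 0 := by
  have h1 := Besicovitch.ae_tendsto_measure_inter_div (volume : Measure ℝ) T
  have h2 : ∀ t ∈ T, ¬ Tendsto (fun r => volume (T ∩ closedBall t r) / volume (closedBall t r))
      (𝓝[>] 0) (𝓝 1) := by
    intro t ht hlim
    obtain ⟨s, hst, hs⟩ := h t ht
    have hd : 0 < |s - t| := abs_pos.2 (sub_ne_zero.2 hst)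
    have hev : ∀ᶠ r in 𝓝[>] (0 : ℝ),
        volume (T ∩ closedBall t r) / volume (closedBall t r) ≤ 1 / 2 := by
      filter_upwards [Ioo_mem_nhdsGT hd] with r hr
      have hr0 : 0 < r := hr.1
      have hsub : T ∩ closedBall t r ⊆ (T ∩ Ioo (min t s) (max t s)) ∪
          (if t < s then Icc (t - r) t else Icc t (t + r)) := by
        rintro y ⟨hy, hy'⟩
        rw [mem_closedBall, Real.dist_eq, abs_le] at hy'
        by_cases hts : t < s
        · rw [if_pos hts, min_eq_left hts.le, max_eq_right hts.le]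
          have hr2 := hr.2
          rw [abs_of_pos (by linarith)] at hr2
          rcases le_or_gt y t with hyt | hyt
          · exact Or.inr ⟨by linarith [hy'.1], hyt⟩
          · exact Or.inl ⟨hy, hyt, by linarith [hy'.2]⟩
        · have hts' : s < t := lt_of_le_of_ne (not_lt.1 hts) hst
          rw [if_neg hts, min_eq_right hts'.le, max_eq_left hts'.le]
          have hr2 := hr.2
          rw [abs_of_neg (by linarith)] at hr2
          rcases le_or_gt t y with hyt | hyt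
          · exact Or.inr ⟨hyt, by linarith [hy'.2]⟩
          · exact Or.inl ⟨hy, by linarith [hy'.1], hyt⟩
      have hvol : volume (T ∩ closedBall t r) ≤ ENNReal.ofReal r := by
        refine (measure_mono hsub).trans ((measure_union_le _ _).trans ?_)
        rw [hs, zero_add]
        split_ifs
        · rw [Real.volume_Icc]
          exact ENNReal.ofReal_le_ofReal (by linarith)
        · rw [Real.volume_Icc]
          exact ENNReal.ofReal_le_ofReal (by linarith)
      rw [Real.volume_closedBall]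
      refine (ENNReal.div_le_div_right hvol _).trans ?_
      rw [← ENNReal.ofReal_div_of_pos (by positivity)]
      have : r / (2 * r) = 1 / 2 := by field_simp
      rw [this, ENNReal.ofReal_div_of_pos (by norm_num)]
      simp
    have h3 := le_of_tendsto hlim hev
    norm_num at h3
  have h3 : ∀ᵐ x ∂(volume : Measure ℝ).restrict T, x ∉ T := by
    filter_upwards [h1] with x hx hxT
    exact h2 x hxT hx
  rw [ae_iff] at h3
  have h4 : {a : ℝ | ¬ a ∉ T} = T := by
    ext a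
    simp
  rw [h4, Measure.restrict_apply_self] at h3
  exact h3

/-- Slices of strands. -/
lemma slice_str (hMe : MeasStmt) {M e : ℝ} (hM : 1 ≤ M) (he : 0 < e) (he1 : e ≤ 1) :
    ∃ c > (0 : ℝ), ∀ (f : ℂ → ℝ) (κ : Set ℂ) (a b : ℝ), Str M e f κ → a < b → Reach f κ a b →
      ∀ᵐ t : ℝ, t ∈ Ioo a b → ENNReal.ofReal c ≤ dimH (κ ∩ f ⁻¹' {t}) := by
  obtain ⟨δ, hδ, hδ1, hsp⟩ := splitStmt M e hM he he1
  obtain ⟨c, hc, hm⟩ := hMe M e δ hδ hδ1 hsp
  refine ⟨c, hc, fun f κ a b hS hab hr => ?_⟩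
  filter_upwards [hm f κ a b hS hab hr] with t ht htab
  by_contra hlt
  push Not at hlt
  refine ht htab (covDimStmt _ c ?_ hc hlt)
  exact hS.cpt.of_isClosed_subset
    (hS.contOn.preimage_isClosed_of_isClosed hS.cpt.isClosed isClosed_singleton) inter_subset_left

/-- Local properties of a function on a continuum. -/
structure LocAt (A : Set ℂ) (f : ℂ → ℝ) (p : ℂ) (ρ c : ℝ) : Prop where
  osc : ∀ κ, Sc (A ∩ closedBall p ρ) κ → κ.Nontrivial → ∃ z ∈ κ, ∃ w ∈ κ, f z < f w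
  cont : ContinuousOn f (closedBall p ρ)
  ae : ∀ κ, Sc (A ∩ closedBall p ρ) κ → ∀ a b, a < b → Reach f κ a b →
    ∀ᵐ t : ℝ, t ∈ Ioo a b → ENNReal.ofReal c ≤ dimH (κ ∩ f ⁻¹' {t})
  split : ∀ κ, Sc (A ∩ closedBall p ρ) κ → ∀ a b, a < b → Reach f κ a b →
    ∃ c' d', a ≤ c' ∧ c' < d' ∧ d' ≤ b ∧ ∃ σ₀ σ₁, Sc κ σ₀ ∧ Sc κ σ₁ ∧ Reach f σ₀ c' d' ∧
      Reach f σ₁ c' d' ∧ ¬ (σ₀ ∩ σ₁).Nonempty
  wid : ∃ M > (0 : ℝ), Wid (A ∩ closedBall p ρ) f M

theorem loc_at (hW : WidStmt2) (hMe : MeasStmt) {e : ℝ} (he : 0 < e) (he1 : e ≤ 1) :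
    ∃ c > (0 : ℝ), ∀ A : Set ℂ, Wiggly A e → ∀ (f : ℂ → ℝ) (f' : ℂ →L[ℝ] ℝ) (p : ℂ),
      HasStrictFDerivAt f f' p → f' ≠ 0 → ∃ ρ > (0 : ℝ), LocAt A f p ρ c := by
  obtain ⟨P, hP, hW'⟩ := hW e he
  obtain ⟨c, hc, hsl⟩ := slice_str hMe hP he he1
  obtain ⟨δ, hδ, hδ1, hsp⟩ := splitStmt P e hP he he1
  refine ⟨c, hc, fun A hA f f' p hf hf' => ?_⟩
  obtain ⟨ρ, hρ, l, hl, hlip, hwid⟩ := hW' A hA f f' p hf hf'
  have hPp : 0 < P := by linarith
  have hstr : ∀ κ, Sc (A ∩ closedBall p ρ) κ → Str P e (fun z => f z / l) κ := by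
    intro κ hκ
    refine ⟨hκ.cpt, hκ.conn, fun z hz w hw => ?_, fun τ hτ x hx y hy => ?_,
      fun τ hτ => hA τ ⟨fun z hz => (hκ.sub (hτ.sub hz)).1, hτ.cpt, hτ.conn⟩⟩
    · have := hlip z (hκ.sub hz).2 w (hκ.sub hw).2
      rw [← sub_div, abs_div, abs_of_pos hl, div_le_iff₀ hl]
      linarith
    · obtain ⟨z, hz, w, hw, h⟩ := hwid τ (hκ.trans hτ) x hx y hy
      refine ⟨z, hz, w, hw, h.trans (le_of_eq ?_)⟩
      field_simp
  have hreach : ∀ κ a b, Reach f κ a b ↔ Reach (fun z => f z / l) κ (a / l) (b / l) := by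
    intro κ a b
    unfold Reach
    simp only [div_le_div_iff_of_pos_right hl]
  refine ⟨ρ, hρ, ?_, ?_, ?_, ?_, P / l, by positivity, hwid⟩
  · rintro κ hκ ⟨x, hx, y, hy, hxy⟩
    obtain ⟨z, hz, w, hw, h⟩ := hwid κ hκ x hx y hy
    refine ⟨w, hw, z, hz, ?_⟩
    have h1 : 0 < P / l * (f z - f w) := lt_of_lt_of_le (dist_pos.2 hxy) h
    have h2 : 0 < f z - f w := pos_of_mul_pos_right h1 (by positivity)
    linarith
  · have h1 : LipschitzOnWith ⟨l, hl.le⟩ f (closedBall p ρ) :=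
      LipschitzOnWith.of_dist_le_mul fun z hz w hw => by
        rw [Real.dist_eq]
        exact hlip z hz w hw
    exact h1.continuousOn
  · intro κ hκ a b hab hr
    have h1 := hsl (fun z => f z / l) κ (a / l) (b / l) (hstr κ hκ)
      (div_lt_div_of_pos_right hab hl) ((hreach κ a b).1 hr)
    have hq : Measure.QuasiMeasurePreserving (fun t : ℝ => l⁻¹ * t) volume volume := by
      refine ⟨measurable_const_mul _, ?_⟩
      rw [Real.map_volume_mul_left (inv_ne_zero hl.ne')]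
      exact Measure.smul_absolutelyContinuous
    filter_upwards [hq.ae h1] with t ht htab
    have e1 : l⁻¹ * t ∈ Ioo (a / l) (b / l) := by
      rw [inv_mul_eq_div]
      exact ⟨div_lt_div_of_pos_right htab.1 hl, div_lt_div_of_pos_right htab.2 hl⟩
    have e2 : κ ∩ (fun z => f z / l) ⁻¹' {l⁻¹ * t} = κ ∩ f ⁻¹' {t} := by
      ext z
      simp only [mem_inter_iff, mem_preimage, mem_singleton_iff, inv_mul_eq_div,
        div_left_inj' hl.ne']
    rw [← e2]
    exact ht e1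
  · intro κ hκ a b hab hr
    obtain ⟨c', d', h1, h2, h3, σ₀, σ₁, h4, h5, h6, h7, h8⟩ :=
      hsp (fun z => f z / l) κ (a / l) (b / l) (hstr κ hκ) (div_lt_div_of_pos_right hab hl)
        ((hreach κ a b).1 hr)
    have hpos : 0 < δ * (b / l - a / l) :=
      mul_pos hδ (sub_pos.2 (div_lt_div_of_pos_right hab hl))
    refine ⟨c' * l, d' * l, (div_le_iff₀ hl).1 h1, mul_lt_mul_of_pos_right (by linarith) hl,
      (le_div_iff₀ hl).1 h3, σ₀, σ₁, h4, h5, ?_, ?_, ?_⟩
    · rw [hreach, mul_div_cancel_right₀ _ hl.ne', mul_div_cancel_right₀ _ hl.ne']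
      exact h6
    · rw [hreach, mul_div_cancel_right₀ _ hl.ne', mul_div_cancel_right₀ _ hl.ne']
      exact h7
    · rintro ⟨u, hu, hu'⟩
      have := h8 u hu u hu'
      rw [dist_self] at this
      linarith

end Pool.Agent.H81.PS
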