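import Pool.Agent.H81.PS.Loc

/-!
Almost all slices of wandering continua have positive dimension (problem MP_90715c_gt): slices
of nonstraight continua.
-/

open Set Filter Topology MeasureTheory Metric TopologicalSpace

namespace Pool.Agent.H81.PS

variable {A : Set ℂ} {f : ℂ → ℝ} {c : ℝ}

/-- `f` is not constant. -/
theorem nonconst (hA : IsCompact A) (hAc : IsPreconnected A) (hn : A.Nontrivial)
    (hloc : ∀ p ∈ A, ∃ ρ > (0 : ℝ), LocAt A f p ρ c) : (f '' A).Nontrivial := by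
  obtain ⟨x, hx, -⟩ := id hn
  obtain ⟨ρ, hρ, hL⟩ := hloc x hx
  obtain ⟨κ, h1, h2, h3, h4⟩ := loc_cont hA hAc hn hx hρ
  obtain ⟨z, hz, w, hw, h⟩ := hL.osc κ
    ⟨fun y hy => ⟨h1.sub hy, mem_closedBall.2 (h3 y hy)⟩, h1.cpt, h1.conn⟩ h4
  exact ⟨f z, ⟨z, h1.sub hz, rfl⟩, f w, ⟨w, h1.sub hw, rfl⟩, h.ne⟩

/-- Levels of points where the slice has small dimension, with a witness ball. -/
def SL (A : Set ℂ) (f : ℂ → ℝ) (c : ℝ) (q : ℂ) (r : ℝ) : Set ℝ :=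
  {t | ∃ x ∈ A, f x = t ∧ dist x q < r ∧ dimH (A ∩ f ⁻¹' {t} ∩ ball q (2 * r)) <
    ENNReal.ofReal c}

theorem sl_null (hA : IsCompact A) (hAc : IsPreconnected A) (hn : A.Nontrivial)
    (hloc : ∀ p ∈ A, ∃ ρ > (0 : ℝ), LocAt A f p ρ c) (q : ℂ) {r : ℝ} :
    volume (SL A f c q r) = 0 := by
  apply null_of_side
  rintro t ⟨x, hx, hft, hxq, -⟩
  obtain ⟨ρ, hρ, hL⟩ := hloc x hx
  have hr' : 0 < min ρ ((2 * r - dist x q) / 2) := by
    apply lt_min hρ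
    have := dist_nonneg (x := x) (y := q)
    linarith
  obtain ⟨κ, h1, h2, h3, h4⟩ := loc_cont hA hAc hn hx hr'
  have hκ : Sc (A ∩ closedBall x ρ) κ :=
    ⟨fun y hy => ⟨h1.sub hy, mem_closedBall.2 ((h3 y hy).trans (min_le_left _ _))⟩,
      h1.cpt, h1.conn⟩
  have hball : ∀ y ∈ κ, y ∈ ball q (2 * r) := by
    intro y hy
    rw [mem_ball]
    have e1 := (h3 y hy).trans (min_le_right _ _)
    have e2 := dist_triangle y x q
    have e3 := dist_nonneg (x := x) (y := q)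
    linarith
  obtain ⟨z, hz, w, hw, hzw⟩ := hL.osc κ hκ h4
  have hs : ∃ y ∈ κ, f y ≠ t := by
    by_cases h : f z = t
    · exact ⟨w, hw, fun h' => by rw [h, h'] at hzw; exact lt_irrefl _ hzw⟩
    · exact ⟨z, hz, h⟩
  obtain ⟨y, hy, hyt⟩ := hs
  refine ⟨f y, hyt, ?_⟩
  have hlt : min t (f y) < max t (f y) := by
    rcases lt_or_gt_of_ne hyt with h | h
    · rw [min_eq_right h.le, max_eq_left h.le]
      exact h
    · rw [min_eq_left h.le, max_eq_right h.le]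
      exact h
  have hr : Reach f κ (min t (f y)) (max t (f y)) := by
    rcases lt_or_gt_of_ne hyt with h | h
    · rw [min_eq_right h.le, max_eq_left h.le]
      exact ⟨⟨y, hy, le_rfl⟩, x, h2, hft.ge⟩
    · rw [min_eq_left h.le, max_eq_right h.le]
      exact ⟨⟨x, h2, hft.le⟩, y, hy, le_rfl⟩
  have hae := hL.ae κ hκ _ _ hlt hr
  rw [ae_iff] at hae
  refine measure_mono_null ?_ hae
  rintro u ⟨⟨v, -, -, -, hv⟩, hu⟩
  rw [mem_setOf_eq, Classical.not_imp]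
  refine ⟨hu, ?_⟩
  push Not
  refine lt_of_le_of_lt (dimH_mono ?_) hv
  rintro y ⟨hy, hy'⟩
  exact ⟨⟨h1.sub hy, hy'⟩, hball y hy⟩

/-- Almost all slices have positive dimension everywhere. -/
theorem ae_dim (hA : IsCompact A) (hAc : IsPreconnected A) (hn : A.Nontrivial)
    (hloc : ∀ p ∈ A, ∃ ρ > (0 : ℝ), LocAt A f p ρ c) :
    ∀ᵐ t : ℝ, ∀ x ∈ A, f x = t → ∀ r > (0 : ℝ),
      ENNReal.ofReal c ≤ dimH (A ∩ f ⁻¹' {t} ∩ ball x r) := by
  have h1 : ∀ j : ℕ × ℕ, ∀ᵐ t : ℝ, t ∉ SL A f c (denseSeq ℂ j.1) (1 / ((j.2 : ℝ) + 1)) := by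
    intro j
    rw [ae_iff]
    have h2 : {a : ℝ | ¬ a ∉ SL A f c (denseSeq ℂ j.1) (1 / ((j.2 : ℝ) + 1))} =
        SL A f c (denseSeq ℂ j.1) (1 / ((j.2 : ℝ) + 1)) := by
      ext a
      simp
    rw [h2]
    exact sl_null hA hAc hn hloc _
  filter_upwards [ae_all_iff.2 h1] with t ht x hx hft r hr
  by_contra hlt
  push Not at hlt
  obtain ⟨n, hn'⟩ := exists_nat_one_div_lt (show (0 : ℝ) < r / 3 by positivity)
  have hn0 : (0 : ℝ) < 1 / ((n : ℝ) + 1) := by positivity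
  obtain ⟨m, hm⟩ := (denseRange_denseSeq ℂ).exists_dist_lt x hn0
  refine ht (m, n) ⟨x, hx, hft, hm, lt_of_le_of_lt (dimH_mono ?_) hlt⟩
  apply inter_subset_inter_right
  intro y hy
  rw [mem_ball] at hy ⊢
  have e1 := dist_triangle y (denseSeq ℂ m) x
  rw [dist_comm (denseSeq ℂ m) x] at e1
  linarith

/-- Generic slices have no isolated points. -/
theorem meagre_iso (hA : IsCompact A) (hAc : IsPreconnected A) (hn : A.Nontrivial)
    (hloc : ∀ p ∈ A, ∃ ρ > (0 : ℝ), LocAt A f p ρ c) (hf : ContinuousOn f A) :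
    IsMeagre (IsoLev A f) := by
  by_contra hnm
  obtain ⟨κ, h1, M, hM, hw, a, b, hab, hr, hu⟩ := baireStmt A hA hAc hn f hf
    (fun p hp => by
      obtain ⟨ρ, hρ, hL⟩ := hloc p hp
      obtain ⟨M, hM, hw⟩ := hL.wid
      exact ⟨ρ, hρ, M, hM, hw⟩) hnm
  -- a point in the middle
  obtain ⟨x, hx, hfx⟩ := ivt_level (hf.mono h1.sub) (σ := κ) ⟨Subset.rfl, h1.cpt, h1.conn⟩ hr
    (t := (a + b) / 2) (by linarith) (by linarith)
  obtain ⟨ρ, hρ, hL⟩ := hloc x (h1.sub hx)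
  have hκn : κ.Nontrivial := by
    obtain ⟨⟨u, hu, hu'⟩, v, hv, hv'⟩ := hr
    refine ⟨u, hu, v, hv, ?_⟩
    rintro rfl
    linarith
  have hcx : ∃ ε > (0 : ℝ), ε ≤ ρ ∧ ∀ y, dist y x ≤ ε → f y ∈ Ioo a b := by
    have e1 : ContinuousAt f x := hL.cont.continuousAt (closedBall_mem_nhds x hρ)
    have e2 : f ⁻¹' Ioo a b ∈ 𝓝 x := by
      apply e1
      rw [hfx]
      exact Ioo_mem_nhds (by linarith) (by linarith)
    obtain ⟨ε, hε, hsub⟩ := Metric.nhds_basis_closedBall.mem_iff.1 e2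
    exact ⟨min ε ρ, lt_min hε hρ, min_le_right _ _, fun y hy =>
      hsub (mem_closedBall.2 (hy.trans (min_le_left _ _)))⟩
  obtain ⟨ε, hε, hερ, hεf⟩ := hcx
  obtain ⟨κ', k1, k2, k3, k4⟩ := loc_cont h1.cpt h1.conn hκn hx hε
  have hκ' : Sc (A ∩ closedBall x ρ) κ' :=
    ⟨fun y hy => ⟨h1.sub (k1.sub hy), mem_closedBall.2 ((k3 y hy).trans hερ)⟩, k1.cpt, k1.conn⟩
  obtain ⟨z, hz, w, hw', hzw⟩ := hL.osc κ' hκ' k4
  obtain ⟨c', d', g1, g2, g3, σ₀, σ₁, g4, g5, g6, g7, g8⟩ := hL.split κ' hκ' (f z) (f w) hzw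
    ⟨⟨z, hz, le_rfl⟩, w, hw', le_rfl⟩
  exact g8 (hu c' d' (by linarith [(hεf z (k3 z hz)).1]) g2 (by linarith [(hεf w (k3 w hw')).2])
    σ₀ σ₁ (k1.trans g4) (k1.trans g5) g6 g7)

end Pool.Agent.H81.PS
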