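import Pool.Agent.H81.PS.Stm

/-!
Almost all slices of wandering continua have positive dimension (problem MP_90715c_gt):
statements.
-/

open Set Filter Topology MeasureTheory

namespace Pool.Agent.H81.PS

/-- A continuum with the three metric properties used below. -/
structure Str (M e : ℝ) (f : ℂ → ℝ) (κ : Set ℂ) : Prop where
  cpt : IsCompact κ
  conn : IsPreconnected κ
  lip : ∀ z ∈ κ, ∀ w ∈ κ, |f z - f w| ≤ dist z w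
  wid : Wid κ f M
  wig : Wiggly κ e

/-- Every continuum over an interval of levels splits over a subinterval. -/
def SplitAt (δ M e : ℝ) : Prop := ∀ (f : ℂ → ℝ) (κ : Set ℂ) (a b : ℝ), Str M e f κ → a < b →
  Reach f κ a b → ∃ c' d', a ≤ c' ∧ c' + δ * (b - a) ≤ d' ∧ d' ≤ b ∧ ∃ σ₀ σ₁, Sc κ σ₀ ∧
    Sc κ σ₁ ∧ Reach f σ₀ c' d' ∧ Reach f σ₁ c' d' ∧ ∀ u ∈ σ₀, ∀ v ∈ σ₁, δ * (b - a) ≤ dist u v

/-- Row 4: the splitting lemma. -/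
def SplitStmt : Prop := ∀ M e : ℝ, 1 ≤ M → 0 < e → e ≤ 1 → ∃ δ > (0 : ℝ), δ ≤ 1 ∧ SplitAt δ M e

/-- `X` has a finite cover by balls of radius at least `r` and cost less than `C`. -/
def Cov (X : Set ℂ) (c r C : ℝ) : Prop := ∃ (F : Finset ℕ) (x : ℕ → ℂ) (ρ : ℕ → ℝ),
  (∀ i ∈ F, r ≤ ρ i) ∧ (∀ z ∈ X, ∃ i ∈ F, dist z (x i) < ρ i) ∧ ∑ i ∈ F, ρ i ^ c < C

/-- Row 5: almost all slices have positive content. -/
def MeasStmt : Prop := ∀ M e δ : ℝ, 0 < δ → δ ≤ 1 → SplitAt δ M e → ∃ c > (0 : ℝ),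
  ∀ (f : ℂ → ℝ) (κ : Set ℂ) (a b : ℝ), Str M e f κ → a < b → Reach f κ a b →
    ∀ᵐ t : ℝ, t ∈ Ioo a b → ¬ ∀ C > (0 : ℝ), ∃ r > (0 : ℝ), Cov (κ ∩ f ⁻¹' {t}) c r C

/-- Row 6: covers from small dimension. -/
def CovDimStmt : Prop := ∀ (X : Set ℂ) (c : ℝ), IsCompact X → 0 < c →
  dimH X < ENNReal.ofReal c → ∀ C > (0 : ℝ), ∃ r > (0 : ℝ), Cov X c r C

/-- Row 1 with constants: `P` depends only on `e`. -/
def WidStmt2 : Prop := ∀ e : ℝ, 0 < e → ∃ P : ℝ, 1 ≤ P ∧ ∀ A : Set ℂ, Wiggly A e →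
  ∀ (f : ℂ → ℝ) (f' : ℂ →L[ℝ] ℝ) (p : ℂ), HasStrictFDerivAt f f' p → f' ≠ 0 →
    ∃ ρ > (0 : ℝ), ∃ l > (0 : ℝ),
      (∀ z ∈ Metric.closedBall p ρ, ∀ w ∈ Metric.closedBall p ρ, |f z - f w| ≤ l * dist z w) ∧
        Wid (A ∩ Metric.closedBall p ρ) f (P / l)

end Pool.Agent.H81.PS
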