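import Pool.Agent.H81.PS.ArcP
import Pool.Agent.H81.PS.Stm2
import Pool.Agent.H81.PS.Iter

/-!
Almost all slices of wandering continua have positive dimension (problem MP_90715c_gt): the
splitting lemma.
-/

open Set Filter Topology

namespace Pool.Agent.H81.PS

lemma Str.contOn {M e : ℝ} {f : ℂ → ℝ} {κ : Set ℂ} (h : Str M e f κ) : ContinuousOn f κ := by
  have h1 : LipschitzOnWith 1 f κ := LipschitzOnWith.of_dist_le_mul fun z hz w hw => by
    rw [Real.dist_eq]
    simpa using h.lip z hz w hw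
  exact h1.continuousOn

lemma Sc.trans {A κ κ' : Set ℂ} (h : Sc A κ) (h' : Sc κ κ') : Sc A κ' :=
  ⟨h'.sub.trans h.sub, h'.cpt, h'.conn⟩

lemma Str.sc {M e : ℝ} {f : ℂ → ℝ} {κ κ' : Set ℂ} (h : Str M e f κ) (h' : Sc κ κ') :
    Str M e f κ' :=
  ⟨h'.cpt, h'.conn, fun z hz w hw => h.lip z (h'.sub hz) w (h'.sub hw),
    fun τ hτ => h.wid τ (h'.trans hτ), fun τ hτ => h.wig τ (h'.trans hτ)⟩

/-- Boundary bumping for a band of levels. -/
lemma level_bump {κ : Set ℂ} {f : ℂ → ℝ} (hk : IsCompact κ) (hp : IsPreconnected κ)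
    (hf : ContinuousOn f κ) {z : ℂ} (hz : z ∈ κ) {s : ℝ} (hs : 0 < s)
    (hy : ∃ y ∈ κ, s ≤ |f y - f z|) :
    ∃ C, Sc κ C ∧ z ∈ C ∧ (∀ x ∈ C, f x ∈ Icc (f z - s) (f z + s)) ∧
      (Reach f C (f z - s) (f z) ∨ Reach f C (f z) (f z + s)) := by
  have hW : IsClosed (κ ∩ f ⁻¹' Icc (f z - s) (f z + s)) :=
    hf.preimage_isClosed_of_isClosed hk.isClosed isClosed_Icc
  have hQ : IsClosed (κ ∩ f ⁻¹' (Iic (f z - s) ∪ Ici (f z + s))) :=
    hf.preimage_isClosed_of_isClosed hk.isClosed (isClosed_Iic.union isClosed_Ici)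
  obtain ⟨y, hy, hy'⟩ := hy
  obtain ⟨σ, hσ, h1, h2, ⟨u, hu, hu'⟩, ⟨v, hv, hv'⟩⟩ := Pool.Agent.H90.WC.bumping hk hp hW
    (isClosed_singleton (x := z)) hQ
    (by
      intro w hw
      rcases le_total (f w) (f z - s) with h | h
      · exact Or.inr (Or.inr ⟨hw, Or.inl h⟩)
      · rcases le_total (f w) (f z + s) with h' | h'
        · exact Or.inl ⟨hw, h, h'⟩
        · exact Or.inr (Or.inr ⟨hw, Or.inr h'⟩))
    (by
      intro w _ hw hw'
      have hwz : w = z := hw
      rw [hwz] at hw'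
      rcases hw'.2 with h | h
      · have h' : f z ≤ f z - s := h
        linarith
      · have h' : f z + s ≤ f z := h
        linarith)
    ⟨z, hz, rfl⟩ ⟨y, hy, hy, by
      rcases le_abs.1 hy' with h | h
      · exact Or.inr (show f z + s ≤ f y by linarith)
      · exact Or.inl (show f y ≤ f z - s by linarith)⟩
  have huz : u = z := hu'
  rw [huz] at hu
  refine ⟨σ, ⟨fun w hw => (hσ hw).1, h1, h2⟩, hu, fun w hw => (hσ hw).2.2, ?_⟩
  rcases hv'.2 with h | h
  · exact Or.inl ⟨⟨v, hv, h⟩, z, hu, le_rfl⟩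
  · exact Or.inr ⟨⟨z, hu, le_rfl⟩, v, hv, h⟩

theorem splitStmt : SplitStmt := by
  intro M e hM he he1
  obtain ⟨θ, hθ, hit⟩ := iter M e hM he he1
  set θ' : ℝ := min θ (1 / 4) with hθ'
  have hθ'p : 0 < θ' := lt_min hθ (by norm_num)
  have hθ'1 : θ' ≤ θ := min_le_left _ _
  have hθ'2 : θ' ≤ 1 / 4 := min_le_right _ _
  set δ : ℝ := min (1 / 4) (θ' / (2 * (4 * M + 1))) with hδ
  have hMp : (0 : ℝ) < 4 * M + 1 := by linarith
  have hδp : 0 < δ := lt_min (by norm_num) (by positivity)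
  have hδ1 : δ ≤ 1 / 4 := min_le_left _ _
  have hδ2 : (4 * M + 1) * δ ≤ θ' / 2 := by
    have h1 : δ ≤ θ' / (2 * (4 * M + 1)) := min_le_right _ _
    rw [le_div_iff₀ (by positivity)] at h1
    linarith
  refine ⟨δ, hδp, by linarith, ?_⟩
  intro f κ a b hS hab hr
  by_contra hcon
  push Not at hcon
  have hcont := hS.contOn
  have hh : 0 < b - a := by linarith
  set η : ℝ := δ * (b - a) with hη
  have hηp : 0 < η := mul_pos hδp hh
  have hη4 : η ≤ (b - a) / 4 := by
    have := mul_le_mul_of_nonneg_right hδ1 hh.le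
    linarith
  have hE : (4 * M + 1) * η ≤ θ' * (b - a) / 2 := by
    have := mul_le_mul_of_nonneg_right hδ2 hh.le
    calc (4 * M + 1) * η = (4 * M + 1) * δ * (b - a) := by rw [hη]; ring
      _ ≤ θ' / 2 * (b - a) := this
      _ = θ' * (b - a) / 2 := by ring
  set E : ℝ := (4 * M + 1) * η with hEdef
  have hE0 : 0 ≤ E := by positivity
  have hE1 : E ≤ θ * (b - η - (a + η)) := by
    have h1 : θ' * (b - a) / 2 ≤ θ' * (b - η - (a + η)) := by nlinarith
    have h2 : θ' * (b - η - (a + η)) ≤ θ * (b - η - (a + η)) :=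
      mul_le_mul_of_nonneg_right hθ'1 (by linarith)
    linarith
  have hE2 : E ≤ (b - η - (a + η)) / 4 := by
    have h1 : θ' * (b - a) / 2 ≤ θ' * (b - η - (a + η)) := by nlinarith
    have h2 : θ' * (b - η - (a + η)) ≤ 1 / 4 * (b - η - (a + η)) :=
      mul_le_mul_of_nonneg_right hθ'2 (by linarith)
    linarith
  have hexq : ∀ t : ℝ, ∃ q : ℂ, t ∈ Icc (a + η) (b - η) → ∃ σ, Sc κ σ ∧
      Reach f σ (t - η) (t + η) ∧ (∀ x ∈ σ, f x ∈ Icc (t - η) (t + η)) ∧ q ∈ σ := by
    intro t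
    by_cases ht : t ∈ Icc (a + η) (b - η)
    · obtain ⟨σ, h1, h2, h3⟩ := cross hS.cpt hS.conn hcont (s := t - η) (s' := t + η)
        (by linarith) (hr.mono (by linarith [ht.1]) (by linarith [ht.2]))
      obtain ⟨⟨u, hu, hu'⟩, hv⟩ := h2
      exact ⟨u, fun _ => ⟨σ, h1, ⟨⟨u, hu, hu'⟩, hv⟩, h3, hu⟩⟩
    · exact ⟨0, fun h => absurd h ht⟩
  choose q hq using hexq
  -- points of `κ` are near the chosen points
  have near : ∀ z ∈ κ, f z ∈ Icc (a + η) (b - η) → dist z (q (f z)) ≤ E := by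
    intro z hz hfz
    obtain ⟨σ, h1, h2, h3, h4⟩ := hq (f z) hfz
    have hy : ∃ y ∈ κ, η ≤ |f y - f z| := by
      obtain ⟨⟨y, hy, hy'⟩, -⟩ := hr
      refine ⟨y, hy, ?_⟩
      rw [le_abs]
      right
      linarith [hfz.1]
    obtain ⟨C, g1, g2, g3, g4⟩ := level_bump hS.cpt hS.conn hcont hz hηp hy
    have hMp' : (0 : ℝ) < M := by linarith
    have hfin : ∀ u ∈ C, ∀ v ∈ σ, dist u v < η → dist z (q (f z)) ≤ E := by
      intro u hu v hv huv
      have e1 := wid_band hMp' hS.wid g1 g3 g2 hu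
      have e2 := wid_band hMp' hS.wid h1 h3 hv h4
      have e3 := dist_triangle z u (q (f z))
      have e4 := dist_triangle u v (q (f z))
      rw [hEdef]
      nlinarith
    rcases g4 with g4 | g4
    · obtain ⟨u, hu, v, hv, huv⟩ := hcon (f z - η) (f z) (by linarith [hfz.1]) (by linarith)
        (by linarith [hfz.2]) C σ g1 h1 g4 (h2.mono le_rfl (by linarith))
      exact hfin u hu v hv huv
    · obtain ⟨u, hu, v, hv, huv⟩ := hcon (f z) (f z + η) (by linarith [hfz.1]) (by linarith)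
        (by linarith [hfz.2]) C σ g1 h1 g4 (h2.mono (by linarith) le_rfl)
      exact hfin u hu v hv huv
  -- crossings
  have crs : ∀ s ∈ Icc (a + η) (b - η), ∀ s' ∈ Icc (a + η) (b - η), s < s' →
      ∃ τ, Sc κ τ ∧ (∀ x ∈ τ, f x ∈ Icc s s') ∧ ∃ x ∈ τ, ∃ y ∈ τ, f x = s ∧ f y = s' ∧
        dist x y ≤ M * (s' - s) ∧ s' - s ≤ dist x y := by
    intro s hs s' hs' hss
    obtain ⟨τ, h1, ⟨⟨x, hx, hx'⟩, y, hy, hy'⟩, h3⟩ := cross hS.cpt hS.conn hcont hss
      (hr.mono (by linarith [hs.1]) (by linarith [hs'.2]))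
    have ex : f x = s := le_antisymm hx' (h3 x hx).1
    have ey : f y = s' := le_antisymm (h3 y hy).2 hy'
    refine ⟨τ, h1, h3, x, hx, y, hy, ex, ey, wid_band (by linarith) hS.wid h1 h3 hx hy, ?_⟩
    have := hS.lip y (h1.sub hy) x (h1.sub hx)
    rw [ex, ey, dist_comm] at this
    exact (le_abs_self _).trans this
  refine hit (fun s s' => dist (q s) (q s')) (a + η) (b - η) E (by linarith) hE0 hE1 ?_ ?_ ?_
  · intro s hs s' hs' hss
    rcases hss.eq_or_lt with h | h
    · subst h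
      simp only [dist_self, sub_self, mul_zero, zero_add]
      positivity
    · obtain ⟨τ, h1, h3, x, hx, y, hy, ex, ey, h4, h5⟩ := crs s hs s' hs' h
      have n1 := near x (h1.sub hx) (by rw [ex]; exact hs)
      have n2 := near y (h1.sub hy) (by rw [ey]; exact hs')
      rw [ex] at n1
      rw [ey] at n2
      have t1 := dist_triangle4 (q s) x y (q s')
      rw [dist_comm (q s) x] at t1
      linarith
  · intro s hs s' hs' hss
    obtain ⟨τ, h1, h3, x, hx, y, hy, ex, ey, h4, h5⟩ := crs s hs s' hs' hss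
    have hxy : x ≠ y := by
      rintro rfl
      rw [dist_self] at h5
      linarith
    obtain ⟨z, hz, hz'⟩ := hS.wig τ h1 x hx y hy hxy
    have hfz := h3 z hz
    have hfz' : f z ∈ Icc (a + η) (b - η) := ⟨hs.1.trans hfz.1, hfz.2.trans hs'.2⟩
    refine ⟨f z, hfz, ?_⟩
    have n1 := near x (h1.sub hx) (by rw [ex]; exact hs)
    have n2 := near y (h1.sub hy) (by rw [ey]; exact hs')
    have n3 := near z (h1.sub hz) hfz'
    rw [ex] at n1
    rw [ey] at n2
    have t1 := dist_triangle4 (q s) x y (q s')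
    have t2 := dist_triangle4 x (q s) (q (f z)) z
    have t3 := dist_triangle4 z (q (f z)) (q s') y
    rw [dist_comm (q s) x] at t1
    rw [dist_comm (q (f z)) z] at t2
    rw [dist_comm (q s') y] at t3
    have t4 : dist (q s) (q s') ≤ dist x y + 2 * E := by linarith
    have t5 : dist x z ≤ dist (q s) (q (f z)) + 2 * E := by linarith
    have t6 : dist z y ≤ dist (q (f z)) (q s') + 2 * E := by linarith
    have t7 : (1 + e) * dist (q s) (q s') ≤ (1 + e) * (dist x y + 2 * E) :=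
      mul_le_mul_of_nonneg_left t4 (by linarith)
    nlinarith
  · obtain ⟨τ, h1, h3, x, hx, y, hy, ex, ey, h4, h5⟩ := crs (a + η) ⟨le_rfl, by linarith⟩
      (b - η) ⟨by linarith, le_rfl⟩ (by linarith)
    have n1 := near x (h1.sub hx) (by rw [ex]; exact ⟨le_rfl, by linarith⟩)
    have n2 := near y (h1.sub hy) (by rw [ey]; exact ⟨by linarith, le_rfl⟩)
    rw [ex] at n1
    rw [ey] at n2
    have t1 := dist_triangle4 x (q (a + η)) (q (b - η)) y
    rw [dist_comm (q (b - η)) y] at t1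
    linarith

end Pool.Agent.H81.PS
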