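import Pool.Agent.H13.WC.Cut

/-!
Generic slices of wandering continua are perfect (problem MP_90715c_gt): statements.
-/

open Set Filter Topology MeasureTheory

namespace Pool.Agent.H81.PS

/-- `κ` is a planar continuum (possibly empty) contained in `A`. -/
structure Sc (A κ : Set ℂ) : Prop where
  sub : κ ⊆ A
  cpt : IsCompact κ
  conn : IsPreconnected κ

/-- All subcontinua are nonstraight. -/
def Wiggly (A : Set ℂ) (e : ℝ) : Prop := ∀ κ, Sc A κ → ∀ x ∈ κ, ∀ y ∈ κ, x ≠ y →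
  ∃ z ∈ κ, (1 + e) * dist x y ≤ dist x z + dist z y

/-- The diameter of subcontinua is at most `M` times the oscillation of `f`. -/
def Wid (A : Set ℂ) (f : ℂ → ℝ) (M : ℝ) : Prop := ∀ κ, Sc A κ → ∀ x ∈ κ, ∀ y ∈ κ,
  ∃ z ∈ κ, ∃ w ∈ κ, dist x y ≤ M * (f z - f w)

/-- `σ` reaches from the level `c` to the level `d`. -/
def Reach (f : ℂ → ℝ) (σ : Set ℂ) (c d : ℝ) : Prop := (∃ u ∈ σ, f u ≤ c) ∧ ∃ v ∈ σ, d ≤ f v

/-- Any two subcontinua of `κ` over the same interval of levels in `[c, d]` meet. -/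
def Uniq (f : ℂ → ℝ) (κ : Set ℂ) (c d : ℝ) : Prop := ∀ c' d', c ≤ c' → c' < d' → d' ≤ d →
  ∀ σ₀ σ₁, Sc κ σ₀ → Sc κ σ₁ → Reach f σ₀ c' d' → Reach f σ₁ c' d' → (σ₀ ∩ σ₁).Nonempty

/-- The levels over which the slice of `A` has an isolated point. -/
def IsoLev (A : Set ℂ) (f : ℂ → ℝ) : Set ℝ :=
  {t | ∃ x ∈ A, f x = t ∧ ∃ r > (0 : ℝ), ∀ y ∈ A, f y = t → dist y x < r → y = x}

/-- Row 1: a strictly differentiable function with nonzero derivative. -/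
def WidStmt : Prop := ∀ (A : Set ℂ) (e : ℝ), 0 < e → Wiggly A e →
  ∀ (f : ℂ → ℝ) (f' : ℂ →L[ℝ] ℝ) (p : ℂ), HasStrictFDerivAt f f' p → f' ≠ 0 →
    ∃ ρ > (0 : ℝ), ∃ M > (0 : ℝ), Wid (A ∩ Metric.closedBall p ρ) f M

/-- Row 2: Baire category. -/
def BaireStmt : Prop := ∀ (A : Set ℂ), IsCompact A → IsPreconnected A → A.Nontrivial →
  ∀ f : ℂ → ℝ, ContinuousOn f A →
    (∀ p ∈ A, ∃ ρ > (0 : ℝ), ∃ M > (0 : ℝ), Wid (A ∩ Metric.closedBall p ρ) f M) →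
    ¬ IsMeagre (IsoLev A f) →
      ∃ κ, Sc A κ ∧ ∃ M > (0 : ℝ), Wid κ f M ∧ ∃ c d, c < d ∧ Reach f κ c d ∧ Uniq f κ c d

/-- Row 3: the Lipschitz arc. -/
def ArcStmt : Prop := ∀ (κ : Set ℂ) (f : ℂ → ℝ) (M c d : ℝ), IsCompact κ → IsPreconnected κ →
  ContinuousOn f κ → 0 < M → Wid κ f M → c < d → Reach f κ c d → Uniq f κ c d →
    ∃ (p : ℝ → ℂ) (L : NNReal) (a b : ℝ), a < b ∧ LipschitzOnWith L p (Icc a b) ∧
      ∀ t ∈ Icc a b, p t ∈ κ ∧ f (p t) = t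

end Pool.Agent.H81.PS
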